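import Pool.Agent.R344.RL.G

/-!
Prescribed parities on the levels, both signs, any odd `d` prime to three.
-/

set_option autoImplicit false

namespace Pool.Agent.R344.RL

open Finset Filter Topology
open Pool.Agent.H499R2.LT
open Pool.Agent.H499R2.ND (Td Tn Dn cop_of_not_dvd side_odd)
open Pool.Agent.R344.LS

theorem Td_two (d u : ℤ) : Td d (2 * u) = u := by
  unfold Td
  rw [if_pos (by omega)]
  omega

theorem Td_two_one {d : ℤ} (hd : Odd d) (u : ℤ) : 2 * Td d (2 * u + 1) = 3 * (2 * u + 1) + d := by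
  obtain ⟨t, rfl⟩ := hd
  unfold Td
  rw [if_neg (by omega)]
  omega

/-- equal residues mod `2^a` give equal parities, and conversely -/
theorem par_iffZ {d : ℤ} (hd : Odd d) (a : ℕ) : ∀ n m : ℤ, (2 ^ a : ℤ) ∣ n - m ↔
    ∀ i < a, (Td d)^[i] n % 2 = (Td d)^[i] m % 2 := by
  induction a with
  | zero =>
    intro n m
    simp
  | succ a ih =>
    intro n m
    have hsplit : (∀ i < a + 1, (Td d)^[i] n % 2 = (Td d)^[i] m % 2) ↔
        n % 2 = m % 2 ∧ ∀ i < a, (Td d)^[i] (Td d n) % 2 = (Td d)^[i] (Td d m) % 2 := by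
      constructor
      · intro h
        refine ⟨by simpa using h 0 (by omega), fun i hi => ?_⟩
        have := h (i + 1) (by omega)
        rwa [Function.iterate_succ_apply, Function.iterate_succ_apply] at this
      · rintro ⟨h0, h1⟩ i hi
        rcases i with _ | i
        · simpa using h0
        · rw [Function.iterate_succ_apply, Function.iterate_succ_apply]
          exact h1 i (by omega)
    rw [hsplit, ← ih]
    have hpow : (2 : ℤ) ^ (a + 1) = 2 * 2 ^ a := by ring
    have hpar : (2 : ℤ) ^ (a + 1) ∣ n - m → n % 2 = m % 2 := by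
      rintro ⟨t, ht⟩
      rw [hpow, mul_assoc] at ht
      omega
    have key : n % 2 = m % 2 → ((2 : ℤ) ^ (a + 1) ∣ n - m ↔ (2 : ℤ) ^ a ∣ Td d n - Td d m) := by
      intro h
      rcases Int.emod_two_eq_zero_or_one n with h0 | h0
      · obtain ⟨u, rfl⟩ : ∃ u, n = 2 * u := ⟨n / 2, by omega⟩
        obtain ⟨v, rfl⟩ : ∃ v, m = 2 * v := ⟨m / 2, by omega⟩
        rw [Td_two, Td_two, hpow, ← mul_sub]
        exact mul_dvd_mul_iff_left (by norm_num)
      · obtain ⟨u, rfl⟩ : ∃ u, n = 2 * u + 1 := ⟨n / 2, by omega⟩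
        obtain ⟨v, rfl⟩ : ∃ v, m = 2 * v + 1 := ⟨m / 2, by omega⟩
        have h1 := Td_two_one hd u
        have h2 := Td_two_one hd v
        have e : Td d (2 * u + 1) - Td d (2 * v + 1) = 3 * (u - v) := by linarith
        rw [e, hpow, show 2 * u + 1 - (2 * v + 1) = 2 * (u - v) by ring]
        rw [mul_dvd_mul_iff_left (by norm_num)]
        have hc : IsCoprime ((2 : ℤ) ^ a) 3 := IsCoprime.pow_left (by norm_num)
        exact ⟨fun h => h.mul_left 3, fun h => hc.dvd_of_dvd_mul_left h⟩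
    constructor
    · intro h
      exact ⟨hpar h, (key (hpar h)).1 h⟩
    · rintro ⟨h0, h1⟩
      exact (key h0).2 h1

/-- every pattern of parities occurs -/
theorem pat_exZ {d : ℤ} (hd : Odd d) (a : ℕ) : ∀ w : ℕ → ℤ, (∀ i, w i = 0 ∨ w i = 1) →
    ∃ m : ℤ, ∀ i < a, (Td d)^[i] m % 2 = w i := by
  induction a with
  | zero => exact fun _ _ => ⟨0, fun i hi => by omega⟩
  | succ a ih =>
    intro w hw
    obtain ⟨m, hm⟩ := ih (fun i => w (i + 1)) fun i => hw (i + 1)
    rcases hw 0 with h0 | h0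
    · refine ⟨2 * m, fun i hi => ?_⟩
      rcases i with _ | i
      · simp [h0]
      · rw [Function.iterate_succ_apply, Td_two]
        exact hm i (by omega)
    · -- `2 T(2u+1) = 6u + 3 + d`; solve for `u` modulo `2^a`
      have hc : IsCoprime ((2 : ℤ) ^ a) 3 := IsCoprime.pow_left (by norm_num)
      obtain ⟨p, q, hpq⟩ := hc
      obtain ⟨t, ht⟩ := hd
      -- T(2u+1) = 3u + t + 2, want = m mod 2^a : u = q (m - t - 2)
      set u : ℤ := q * (m - t - 2) with hu
      have hT : Td d (2 * u + 1) = 3 * u + t + 2 := by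
        have := Td_two_one (d := d) ⟨t, ht⟩ u
        linarith
      have hdvd : (2 : ℤ) ^ a ∣ Td d (2 * u + 1) - m := by
        refine ⟨-p * (m - t - 2), ?_⟩
        rw [hT, hu]
        linear_combination (m - t - 2) * hpq
      refine ⟨2 * u + 1, fun i hi => ?_⟩
      rcases i with _ | i
      · simp only [Function.iterate_zero, id_eq, h0]
        omega
      · rw [Function.iterate_succ_apply]
        have := (par_iffZ ⟨t, ht⟩ a (Td d (2 * u + 1)) m).1 hdvd i (by omega)
        rw [this]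
        exact hm i (by omega)

/-- a pattern of `a` parities together with a residue mod `3^b` is a residue class mod `2^a 3^b` -/
theorem pat_classZ {d : ℤ} (hd : Odd d) (a b : ℕ) (r : ℤ) (w : ℕ → ℤ) (hw : ∀ i, w i = 0 ∨ w i = 1) :
    ∃ R : ℤ, ∀ n : ℤ, ((∀ i < a, (Td d)^[i] n % 2 = w i) ∧ (3 ^ b : ℤ) ∣ n - r) ↔ (2 ^ a * 3 ^ b : ℤ) ∣ n - R := by
  obtain ⟨m, hm⟩ := pat_exZ hd a w hw
  have hc : IsCoprime ((2 : ℤ) ^ a) (3 ^ b) := IsCoprime.pow (by norm_num)
  obtain ⟨p, q, hpq⟩ := hc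
  -- R = m + p 2^a (r - m)
  refine ⟨m + p * 2 ^ a * (r - m), fun n => ?_⟩
  have h1 : (∀ i < a, (Td d)^[i] n % 2 = w i) ↔ (2 : ℤ) ^ a ∣ n - m := by
    rw [par_iffZ hd]
    constructor
    · intro h i hi
      rw [h i hi, hm i hi]
    · intro h i hi
      rw [h i hi, hm i hi]
  rw [h1]
  have h2 : (2 : ℤ) ^ a ∣ n - m ↔ (2 : ℤ) ^ a ∣ n - (m + p * 2 ^ a * (r - m)) := by
    rw [show n - (m + p * 2 ^ a * (r - m)) = n - m - 2 ^ a * (p * (r - m)) by ring]
    exact (dvd_sub_left (Dvd.intro _ rfl)).symm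
  have h3 : (3 : ℤ) ^ b ∣ n - r ↔ (3 : ℤ) ^ b ∣ n - (m + p * 2 ^ a * (r - m)) := by
    have e : n - (m + p * 2 ^ a * (r - m)) = n - r + 3 ^ b * (q * (r - m)) := by
      linear_combination (-(r - m)) * hpq
    rw [e]
    exact (dvd_add_left (Dvd.intro _ rfl)).symm
  rw [h2, h3]
  constructor
  · rintro ⟨g1, g2⟩
    exact IsCoprime.mul_dvd ⟨p, q, hpq⟩ g1 g2
  · intro h
    exact ⟨(Dvd.intro _ rfl).trans h, (Dvd.intro_left _ rfl).trans h⟩

end Pool.Agent.R344.RL
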