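import Pool.Agent.R344.RL.I
import Pool.Agent.H723R2.LSWWander

/-!
Wandering domains of the entire function `f₀` and the masses of the levels over the cycles.
-/

set_option autoImplicit false

namespace Pool.Agent.R344.RL

open Finset Filter Topology
open Pool.Agent.H384R2.Fatou
open Pool.Agent.H723R2.LSW
open Pool.Agent.H499R2.ND (Td)

theorem Td_eq_T : Td 1 = Pool.Agent.H723R2.LSW.T := by
  funext x
  rfl

theorem wild_iff (n : ℤ) : Wild n ↔ ¬ Cy 1 n := by
  unfold Wild Cy Per
  rw [Td_eq_T]
  constructor
  · rintro h ⟨k, j, hj, he⟩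
    have := h (j + k) k (by rw [Function.iterate_add_apply]; exact he)
    omega
  · intro h i j he
    by_contra hne
    rcases lt_or_gt_of_ne hne with h1 | h1
    · apply h
      refine ⟨i, j - i, by omega, ?_⟩
      rw [← Function.iterate_add_apply, show j - i + i = j by omega, he]
    · apply h
      refine ⟨j, i - j, by omega, ?_⟩
      rw [← Function.iterate_add_apply, show i - j + j = i by omega, he]

theorem wand_iff (n : ℤ) : IsWanderingDomain f₀ (FatouComponent f₀ n) ↔ ¬ Cy 1 n := by
  rw [wandering_iff, wild_iff]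

theorem cast_iff {a b : ℤ} {k : ℕ} : f₀^[k] (a : ℂ) = b ↔ (Td 1)^[k] a = b := by
  rw [Td_eq_T, f₀_iter]; exact_mod_cast Iff.rfl

end Pool.Agent.R344.RL
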