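import Pool.Agent.R344.LS.AF

/-!
Cycling and divergent trajectories of the `3x+d` map, part 1.
-/

set_option autoImplicit false

namespace Pool.Agent.R344.RL

open Finset Filter Topology
open Pool.Agent.H499R2.LT
open Pool.Agent.R344.LS (log43_pos both_line both LZ FH)
open Pool.Agent.H499R2.ND (Td Dn cop_of_not_dvd side_odd cnt cnt_eq cnt_mono tail_le dens_side Inv HD class_pos
  exists_prime3' inv_iter one_eq_zero)

/-- `x` is in a cycle -/
def Per (d : ℤ) (x : ℤ) : Prop := ∃ j : ℕ, 1 ≤ j ∧ (Td d)^[j] x = x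

/-- the trajectory of `x` reaches a cycle -/
def Cy (d : ℤ) (x : ℤ) : Prop := ∃ k : ℕ, Per d ((Td d)^[k] x)

variable {d : ℤ}

theorem Per_step {x : ℤ} (h : Per d x) : Per d (Td d x) := by
  obtain ⟨j, h1, h2⟩ := h
  exact ⟨j, h1, by rw [← Function.iterate_succ_apply, Function.iterate_succ_apply', h2]⟩

theorem Cy_step (x : ℤ) : Cy d x ↔ Cy d (Td d x) := by
  constructor
  · rintro ⟨k, hk⟩
    exact ⟨k, by rw [← Function.iterate_succ_apply, Function.iterate_succ_apply']; exact Per_step hk⟩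
  · rintro ⟨k, hk⟩
    exact ⟨k + 1, by rwa [Function.iterate_succ_apply]⟩

theorem Cy_inv : Inv d {x : ℤ | ¬ Cy d x} := fun x => not_congr (Cy_step x)

theorem Td_ne (hd : Odd d) (hd3 : ¬ (3 : ℤ) ∣ d) {x : ℤ} (h : x ≠ 0) : Td d x ≠ 0 := by
  obtain ⟨t, rfl⟩ := hd
  unfold Td
  split_ifs <;> omega

theorem Td_zero : Td d 0 = 0 := by
  unfold Td
  rw [if_pos (by omega)]
  omega

theorem Td_iter_ne (hd : Odd d) (hd3 : ¬ (3 : ℤ) ∣ d) {x : ℤ} (h : x ≠ 0) (k : ℕ) : (Td d)^[k] x ≠ 0 := by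
  induction k with
  | zero => exact h
  | succ k ih => rw [Function.iterate_succ_apply']; exact Td_ne hd hd3 ih

/-- the nonzero terms of cycles which are met from `[-y, y]` -/
def Zy (d : ℤ) (y : ℕ) : Set ℤ := {x : ℤ | x ≠ 0 ∧ Per d x ∧ ∃ m : ℤ, |m| ≤ y ∧ ∃ k : ℕ, (Td d)^[k] m = x}

theorem per_fin (m : ℤ) : {x : ℤ | Per d x ∧ ∃ k : ℕ, (Td d)^[k] m = x}.Finite := by
  rcases Set.eq_empty_or_nonempty {x : ℤ | Per d x ∧ ∃ k : ℕ, (Td d)^[k] m = x} with h | ⟨x, hx, k0, rfl⟩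
  · rw [h]; exact Set.finite_empty
  · obtain ⟨j, h1, h2⟩ := hx
    apply ((Set.finite_lt_nat (k0 + j)).image fun k => (Td d)^[k] m).subset
    rintro z ⟨-, k, rfl⟩
    induction k using Nat.strong_induction_on with
    | _ k ih =>
      rcases lt_or_ge k (k0 + j) with h | h
      · exact ⟨k, h, rfl⟩
      · have e : (Td d)^[k] m = (Td d)^[k - j] m := by
          conv_lhs => rw [show k = (k - k0 - j) + (j + k0) by omega, Function.iterate_add_apply,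
            Function.iterate_add_apply, h2, ← Function.iterate_add_apply, show k - k0 - j + k0 = k - j by omega]
        rw [e]
        exact ih (k - j) (by omega)

theorem Zy_fin (y : ℕ) : (Zy d y).Finite := by
  apply ((Set.finite_Icc (-(y : ℤ)) y).biUnion fun m _ => per_fin (d := d) m).subset
  rintro x ⟨_, h1, m, hm, k, hk⟩
  rw [Set.mem_iUnion₂]
  exact ⟨m, abs_le.1 hm, h1, k, hk⟩

theorem Zy_step (hd : Odd d) (hd3 : ¬ (3 : ℤ) ∣ d) {y : ℕ} {x : ℤ} (h : x ∈ Zy d y) : Td d x ∈ Zy d y := by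
  obtain ⟨h0, h1, m, hm, k, hk⟩ := h
  exact ⟨Td_ne hd hd3 h0, Per_step h1, m, hm, k + 1, by rw [Function.iterate_succ_apply', hk]⟩

theorem Zy_mono {y y' : ℕ} (h : y ≤ y') : Zy d y ⊆ Zy d y' := by
  rintro x ⟨h0, h1, m, hm, h2⟩
  exact ⟨h0, h1, m, hm.trans (by exact_mod_cast h), h2⟩

/-- the nonzero integers with a cycling trajectory which do not reach the cycles met from `[-y, y]` -/
def Rs (d : ℤ) (y : ℕ) : Set ℤ := {x : ℤ | x ≠ 0 ∧ Cy d x ∧ ∀ k : ℕ, (Td d)^[k] x ∉ Zy d y}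

theorem Rs_inv (hd : Odd d) (hd3 : ¬ (3 : ℤ) ∣ d) (y : ℕ) : Inv d (Rs d y) := by
  intro x
  constructor
  · rintro ⟨h0, h1, h2⟩
    exact ⟨Td_ne hd hd3 h0, by rwa [← Cy_step], fun k => by rw [← Function.iterate_succ_apply]; exact h2 _⟩
  · rintro ⟨h0, h1, h2⟩
    refine ⟨by rintro rfl; exact h0 Td_zero, by rwa [Cy_step], fun k => ?_⟩
    cases k with
    | zero => exact fun h => h2 0 (Zy_step hd hd3 h)
    | succ k => rw [Function.iterate_succ_apply]; exact h2 k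

theorem Rs_large (hd : Odd d) (hd3 : ¬ (3 : ℤ) ∣ d) {y : ℕ} {x : ℤ} (h : x ∈ Rs d y) : (y : ℝ) < |(x : ℝ)| := by
  obtain ⟨h0, ⟨k, hk⟩, h2⟩ := h
  by_contra hc
  rw [not_lt] at hc
  refine h2 k ⟨Td_iter_ne hd hd3 h0 k, hk, x, ?_, k, rfl⟩
  exact_mod_cast hc

/-- the integers which reach the cycles met from `[-y, y]` -/
def Re (d : ℤ) (y : ℕ) : Set ℤ := {x : ℤ | ∃ k : ℕ, (Td d)^[k] x ∈ Zy d y}

theorem three_sum {s : ℤ} (hs : s = 1 ∨ s = -1) {y : ℕ} {r e f : ℝ} (hr : Dn (fun n : ℕ => s * (n : ℤ) ∈ Rs d y) r)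
    (hd : Dn (fun n : ℕ => ¬ Cy d (s * (n : ℤ))) e) (he : Dn (fun n : ℕ => s * (n : ℤ) ∈ Re d y) f) : r + e + f = 1 := by
  classical
  have h1 := (hr.add hd).add he
  refine tendsto_nhds_unique h1 (tendsto_const_nhds.congr' ?_)
  filter_upwards [eventually_gt_atTop 0] with N hN
  have hN0 : (0 : ℝ) < N := by exact_mod_cast hN
  rw [← add_div, ← add_div, eq_comm, div_eq_one_iff_eq hN0.ne', cnt_eq, cnt_eq, cnt_eq]
  rw [← Nat.cast_add, ← Nat.cast_add]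
  congr 1
  have e1 : ((Icc 1 N).filter (fun n : ℕ => s * (n : ℤ) ∈ Rs d y)).card + ((Icc 1 N).filter (fun n : ℕ => ¬ Cy d (s * (n : ℤ)))).card =
      ((Icc 1 N).filter (fun n : ℕ => s * (n : ℤ) ∈ Rs d y ∨ ¬ Cy d (s * (n : ℤ)))).card := by
    rw [filter_or, card_union_of_disjoint]
    rw [disjoint_filter]
    intro n _ h2 h3
    exact h3 h2.2.1
  have e2 : ((Icc 1 N).filter (fun n : ℕ => s * (n : ℤ) ∈ Rs d y ∨ ¬ Cy d (s * (n : ℤ)))).card + ((Icc 1 N).filter (fun n : ℕ => s * (n : ℤ) ∈ Re d y)).card =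
      ((Icc 1 N).filter (fun n : ℕ => (s * (n : ℤ) ∈ Rs d y ∨ ¬ Cy d (s * (n : ℤ))) ∨ s * (n : ℤ) ∈ Re d y)).card := by
    rw [filter_or (p := fun n : ℕ => (s * (n : ℤ) ∈ Rs d y ∨ ¬ Cy d (s * (n : ℤ)))), card_union_of_disjoint]
    rw [disjoint_filter]
    rintro n _ h2 ⟨k, hk⟩
    rcases h2 with h2 | h2
    · exact h2.2.2 k hk
    · exact h2 ⟨k, hk.2.1⟩
  rw [e1, e2, filter_true_of_mem, Nat.card_Icc, Nat.add_sub_cancel]
  intro n hn
  have hn1 := (mem_Icc.1 hn).1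
  have hn0 : s * (n : ℤ) ≠ 0 := by
    rcases hs with rfl | rfl <;> omega
  by_cases h2 : Cy d (s * (n : ℤ))
  · by_cases h3 : s * (n : ℤ) ∈ Re d y
    · exact Or.inr h3
    · exact Or.inl (Or.inl ⟨hn0, h2, fun k hk => h3 ⟨k, hk⟩⟩)
  · exact Or.inl (Or.inr h2)

/-- one sign -/
theorem one_side (hd : Odd d) (hd3 : ¬ (3 : ℤ) ∣ d) {s : ℤ} (hs : s = 1 ∨ s = -1) :
    ∃ e : ℝ, 0 ≤ e ∧ HD s {x | ¬ Cy d x} e ∧
    ∃ r : ℕ → ℝ, (∀ y, 0 ≤ r y) ∧ (∀ B : ℕ, ∃ K : ℝ, 0 < K ∧ ∀ y : ℕ, 2 ≤ y → r y ≤ K / Real.log y ^ B) ∧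
      ∀ y : ℕ, Dn (fun n : ℕ => s * (n : ℤ) ∈ Re d y) (1 - e - r y) := by
  have hc3 := cop_of_not_dvd hd3
  obtain ⟨e, hd0, _, he⟩ := dens_side hd hc3 hs (Cy_inv (d := d))
  have hR : ∀ y : ℕ, ∃ r : ℝ, 0 ≤ r ∧ HD s (Rs d y) r := fun y => by
    obtain ⟨r, h0, _, h1⟩ := dens_side hd hc3 hs (Rs_inv hd hd3 y)
    exact ⟨r, h0, h1⟩
  choose r hr0 hr using hR
  refine ⟨e, hd0, he, r, hr0, ?_, ?_⟩
  · intro B
    obtain ⟨K, hK, h⟩ := tail_le B hd hd3 hs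
    refine ⟨K, hK, fun y hy => ?_⟩
    exact h y (by exact_mod_cast hy) (Rs d y) (Rs_inv hd hd3 y) (fun x hx => Rs_large hd hd3 hx) (r y) (hr y)
  · intro y
    have hinv : Inv d (Re d y) := by
      intro x
      constructor
      · rintro ⟨k, hk⟩
        refine ⟨k, ?_⟩
        rw [← Function.iterate_succ_apply, Function.iterate_succ_apply']
        exact Zy_step hd hd3 hk
      · rintro ⟨k, hk⟩
        exact ⟨k + 1, by rw [Function.iterate_succ_apply]; exact hk⟩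
    obtain ⟨f, _, _, hf⟩ := dens_side hd hc3 hs hinv
    have g1 : Dn (fun n : ℕ => s * (n : ℤ) ∈ Rs d y) (r y) := dn_side (hr y)
    have g2 : Dn (fun n : ℕ => ¬ Cy d (s * (n : ℤ))) e := by
      have := dn_side he
      simpa only [Set.mem_ofPred_eq] using this
    have g3 : Dn (fun n : ℕ => s * (n : ℤ) ∈ Re d y) f := dn_side hf
    have h3 := three_sum hs g1 g2 g3
    have : f = 1 - e - r y := by linarith
    rw [← this]
    exact dn_side hf

/-- THE LEVELS OVER THE CYCLES AND DIVERGENT TRAJECTORIES -/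
theorem cyc_main (hd : Odd d) (hd3 : ¬ (3 : ℤ) ∣ d) : ∃ e₁ e₂ : ℝ, 0 ≤ e₁ ∧ 0 ≤ e₂ ∧
    HD 1 {x | ¬ Cy d x} e₁ ∧ HD (-1) {x | ¬ Cy d x} e₂ ∧
    (e₁ + e₂ = 0 ↔ ∀ x : ℤ, Cy d x) ∧
    ∃ L : ℕ → ℝ, Monotone L ∧
      (∀ y : ℕ, (∀ k : ℕ, Summable (fun x : LZ d (Zy_fin (d := d) y).toFinset k => (1 : ℝ) / |((x : ℤ) : ℝ)|)) ∧
        Tendsto (fun k : ℕ => ∑' x : LZ d (Zy_fin (d := d) y).toFinset k, (1 : ℝ) / |((x : ℤ) : ℝ)|) atTop (𝓝 (L y))) ∧
      (∀ B : ℕ, ∃ K : ℝ, 0 < K ∧ ∀ y : ℕ, 2 ≤ y → 0 ≤ Real.log (4 / 3) * (1 - (e₁ + e₂) / 2) - L y ∧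
        Real.log (4 / 3) * (1 - (e₁ + e₂) / 2) - L y ≤ K / Real.log y ^ B) ∧
      ((∀ x : ℤ, Cy d x) ↔ Tendsto L atTop (𝓝 (Real.log (4 / 3)))) := by
  obtain ⟨e₁, a0, a1, r₁, a3, a4, a5⟩ := one_side hd hd3 (s := 1) (Or.inl rfl)
  obtain ⟨e₂, b0, b1, r₂, b3, b4, b5⟩ := one_side hd hd3 (s := -1) (Or.inr rfl)
  have hl := log43_pos
  have hiff : e₁ + e₂ = 0 ↔ ∀ x : ℤ, Cy d x := by
    constructor
    · intro h
      have g1 : e₁ = 0 := by linarith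
      have g2 : e₂ = 0 := by linarith
      intro x
      by_contra hx
      have hx0 : x ≠ 0 := by
        rintro rfl
        exact hx ⟨0, 1, le_rfl, Td_zero (d := d)⟩
      obtain ⟨k, hk⟩ := exists_prime3' hd hd3 _ x hx0 le_rfl
      have hm : (Td d)^[k] x ∈ {x : ℤ | ¬ Cy d x} := (inv_iter (Cy_inv (d := d)) k x).1 hx
      have h0 := Td_iter_ne hd hd3 hx0 k
      rcases lt_or_gt_of_ne h0 with h1 | h1
      · have := class_pos hd hd3 (s := -1) (Or.inr rfl) (Cy_inv (d := d)) hm (by omega) hk b1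
        linarith
      · have := class_pos hd hd3 (s := 1) (Or.inl rfl) (Cy_inv (d := d)) hm (by omega) hk a1
        linarith
    · intro h
      have g1 := one_eq_zero (s := 1) (Or.inl rfl) (S := {x : ℤ | ¬ Cy d x}) (fun a ha _ => ha (h a)) a1
      have g2 := one_eq_zero (s := -1) (Or.inr rfl) (S := {x : ℤ | ¬ Cy d x}) (fun a ha _ => ha (h a)) b1
      rw [g1, g2, add_zero]
  set L : ℕ → ℝ := fun y => Real.log (4 / 3) / 2 * ((1 - e₁ - r₁ y) + (1 - e₂ - r₂ y)) with hL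
  have hbound : ∀ B : ℕ, ∃ K : ℝ, 0 < K ∧ ∀ y : ℕ, 2 ≤ y → 0 ≤ Real.log (4 / 3) * (1 - (e₁ + e₂) / 2) - L y ∧
        Real.log (4 / 3) * (1 - (e₁ + e₂) / 2) - L y ≤ K / Real.log y ^ B := by
    intro B
    obtain ⟨K₁, hK₁, g1⟩ := a4 B
    obtain ⟨K₂, hK₂, g2⟩ := b4 B
    refine ⟨Real.log (4 / 3) / 2 * (K₁ + K₂), by positivity, fun y hy => ?_⟩
    have e : Real.log (4 / 3) * (1 - (e₁ + e₂) / 2) - L y = Real.log (4 / 3) / 2 * (r₁ y + r₂ y) := by
      rw [hL]; ring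
    rw [e]
    have h1 := g1 y hy
    have h2 := g2 y hy
    have h3 := a3 y
    have h4 := b3 y
    refine ⟨by positivity, ?_⟩
    rw [mul_div_assoc, add_div]
    apply mul_le_mul_of_nonneg_left _ (by positivity)
    exact add_le_add h1 h2
  have hlim : Tendsto L atTop (𝓝 (Real.log (4 / 3) * (1 - (e₁ + e₂) / 2))) := by
    obtain ⟨K, hK, g⟩ := hbound 1
    have h1 : Tendsto (fun y : ℕ => Real.log (4 / 3) * (1 - (e₁ + e₂) / 2) - K / Real.log y ^ 1) atTop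
        (𝓝 (Real.log (4 / 3) * (1 - (e₁ + e₂) / 2) - 0)) := by
      apply tendsto_const_nhds.sub
      simp only [pow_one]
      exact (Real.tendsto_log_atTop.comp tendsto_natCast_atTop_atTop).const_div_atTop K
    rw [sub_zero] at h1
    refine tendsto_of_tendsto_of_tendsto_of_le_of_le' h1 tendsto_const_nhds ?_ ?_
    · filter_upwards [eventually_ge_atTop 2] with y hy
      linarith [(g y hy).2]
    · filter_upwards [eventually_ge_atTop 2] with y hy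
      linarith [(g y hy).1]
  refine ⟨e₁, e₂, a0, b0, a1, b1, hiff, L, ?_, ?_, hbound, ?_⟩
  · intro y y' hy
    have h1 := Pool.Agent.R344.LS.Dn_mono (fun n h => by
      obtain ⟨k, hk⟩ := h
      exact ⟨k, Zy_mono hy hk⟩) (a5 y) (a5 y')
    have h2 := Pool.Agent.R344.LS.Dn_mono (fun n h => by
      obtain ⟨k, hk⟩ := h
      exact ⟨k, Zy_mono hy hk⟩) (b5 y) (b5 y')
    rw [hL]
    show Real.log (4 / 3) / 2 * _ ≤ Real.log (4 / 3) / 2 * _
    apply mul_le_mul_of_nonneg_left _ (by positivity)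
    linarith
  · intro y
    obtain ⟨δ₁, δ₂, _, _, _, _, c1, c2, c3, c4⟩ := both hd hd3 (Zy_fin (d := d) y).toFinset
    have e1 : δ₁ = 1 - e₁ - r₁ y := by
      refine tendsto_nhds_unique c1 ?_
      have := a5 y
      have e : (fun n : ℕ => (1 : ℤ) * (n : ℤ) ∈ Re d y) = fun n : ℕ => ∃ k : ℕ, (Td d)^[k] (1 * (n : ℤ)) ∈ (Zy_fin (d := d) y).toFinset := by
        funext n
        simp only [Re, Set.mem_ofPred_eq, Set.Finite.mem_toFinset]
      rwa [e] at this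
    have e2 : δ₂ = 1 - e₂ - r₂ y := by
      refine tendsto_nhds_unique c2 ?_
      have := b5 y
      have e : (fun n : ℕ => (-1 : ℤ) * (n : ℤ) ∈ Re d y) = fun n : ℕ => ∃ k : ℕ, (Td d)^[k] (-1 * (n : ℤ)) ∈ (Zy_fin (d := d) y).toFinset := by
        funext n
        simp only [Re, Set.mem_ofPred_eq, Set.Finite.mem_toFinset]
      rwa [e] at this
    subst e1
    subst e2
    exact ⟨c3, c4⟩
  · rw [← hiff]
    constructor
    · intro h
      rw [h] at hlim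
      simpa using hlim
    · intro h
      have e := tendsto_nhds_unique h hlim
      have : Real.log (4 / 3) * (e₁ + e₂) = 0 := by linarith
      rcases mul_eq_zero.1 this with h | h
      · linarith
      · linarith

end Pool.Agent.R344.RL
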