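import Pool.Agent.R344.LS.U

/-!
Residues on the levels, part 1: equidistribution of graded families modulo powers of 3.
-/

set_option autoImplicit false

namespace Pool.Agent.R344.RL

open Finset
open Pool.Agent.H499R2.LT
open Pool.Agent.H499R2.ND (Td wc mem_wc wc_card_le cls mem_cls)
open Pool.Agent.H499R2.CZ (FC)
open Pool.Agent.H499R2.LT.C2aux (wc_add)

/-- the inverse of `2` modulo `3^m` -/
def hv (m : ℕ) : ℤ := ((3 : ℤ) ^ m + 1) / 2

theorem two_hv (m : ℕ) : 2 * hv m = 3 ^ m + 1 := by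
  unfold hv
  have h : ((3 : ℤ) ^ m) % 2 = 1 := by
    have : Odd ((3 : ℤ) ^ m) := Odd.pow (by decide)
    exact Int.odd_iff.1 this
  omega

theorem dvd_two (m : ℕ) (c y : ℤ) : (3 : ℤ) ^ m ∣ 2 * y - c ↔ (3 : ℤ) ^ m ∣ y - hv m * c := by
  have h2 := two_hv m
  constructor
  · rintro ⟨t, ht⟩
    refine ⟨hv m * t - y, ?_⟩
    linear_combination hv m * ht - y * h2
  · rintro ⟨t, ht⟩
    refine ⟨2 * t + c, ?_⟩
    linear_combination 2 * ht + c * h2

theorem two_mem {d : ℤ} {R : Set ℤ} {S : ℤ → ℤ → Set ℤ} (hS : GF d R S) (k o y : ℤ)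
    (hy : 2 * y ∉ R) : 2 * y ∈ S k o ↔ y ∈ S (k - 1) o := by
  have h := hS k o (2 * y) hy
  have h1 : (2 * y) % 2 = 0 := by omega
  have h2 : Td d (2 * y) = y := by unfold Td; rw [if_pos h1]; omega
  rw [h2, if_pos h1, sub_zero] at h
  exact h

/-- parity decomposition, upper bound -/
theorem parity_le {d : ℤ} {R : Set ℤ} {S : ℤ → ℤ → Set ℤ} (hS : GF d R S) (m : ℕ) (k o : ℤ) (A : ℝ)
    (c : ℤ) :
    (wc (S k o) A (2 * A) (3 ^ m) c).card ≤ (cls (S k o) A (2 * A) m 1 c).card +
      (wc (S (k - 1) o) (A / 2) (2 * (A / 2)) (3 ^ m) (hv m * c)).card + (wc R A (2 * A) 1 0).card := by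
  classical
  have hev : ((wc (S (k - 1) o) (A / 2) (2 * (A / 2)) (3 ^ m) (hv m * c)).image fun x => 2 * x).card ≤
      (wc (S (k - 1) o) (A / 2) (2 * (A / 2)) (3 ^ m) (hv m * c)).card := card_image_le
  have hsub : wc (S k o) A (2 * A) (3 ^ m) c ⊆ (cls (S k o) A (2 * A) m 1 c ∪
      (wc (S (k - 1) o) (A / 2) (2 * (A / 2)) (3 ^ m) (hv m * c)).image fun x => 2 * x) ∪
        wc R A (2 * A) 1 0 := by
    intro x hx
    rw [mem_wc] at hx
    obtain ⟨h1, h2, h3⟩ := hx
    rw [mem_union, mem_union]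
    by_cases hxR : x ∈ R
    · right
      rw [mem_wc]
      exact ⟨h1, hxR, one_dvd _⟩
    · left
      rcases Int.even_or_odd x with he | ho
      · right
        obtain ⟨y, hy⟩ := he
        rw [mem_image]
        refine ⟨y, ?_, by omega⟩
        rw [mem_wc]
        have hxy : (x : ℝ) = 2 * y := by rw [hy]; push_cast; ring
        have hx2 : x = 2 * y := by omega
        rw [hx2] at h2 hxR h3
        refine ⟨⟨by linarith [h1.1], by linarith [h1.2]⟩, (two_mem hS k o y hxR).1 h2, (dvd_two m c y).1 h3⟩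
      · left
        rw [mem_cls]
        exact ⟨h1, ho, h2, by rw [one_mul]; exact h3⟩
  refine (card_le_card hsub).trans ((card_union_le _ _).trans ?_)
  refine Nat.add_le_add_right ((card_union_le _ _).trans ?_) _
  exact Nat.add_le_add_left hev _

/-- parity decomposition, lower bound -/
theorem parity_ge {d : ℤ} {R : Set ℤ} {S : ℤ → ℤ → Set ℤ} (hS : GF d R S) (m : ℕ) (k o : ℤ) (A : ℝ)
    (c : ℤ) :
    (cls (S k o) A (2 * A) m 1 c).card +
      (wc (S (k - 1) o) (A / 2) (2 * (A / 2)) (3 ^ m) (hv m * c)).card ≤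
      (wc (S k o) A (2 * A) (3 ^ m) c).card + (wc R A (2 * A) 1 0).card := by
  classical
  have hev : (wc (S (k - 1) o) (A / 2) (2 * (A / 2)) (3 ^ m) (hv m * c)).card =
      ((wc (S (k - 1) o) (A / 2) (2 * (A / 2)) (3 ^ m) (hv m * c)).image fun x => 2 * x).card := by
    rw [card_image_of_injective]
    intro x y hxy
    simp only at hxy
    omega
  rw [hev, ← card_union_of_disjoint]
  · refine (card_le_card ?_).trans (card_union_le _ _)
    intro x hx
    rw [mem_union, mem_cls, mem_image] at hx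
    rw [mem_union, mem_wc, mem_wc]
    rcases hx with ⟨h1, h2, h3, h4⟩ | ⟨y, hy, rfl⟩
    · rw [one_mul] at h4
      exact Or.inl ⟨h1, h3, h4⟩
    · rw [mem_wc] at hy
      obtain ⟨h1, h2, h3⟩ := hy
      have hw : A ≤ ((2 * y : ℤ) : ℝ) ∧ ((2 * y : ℤ) : ℝ) < 2 * A := by
        push_cast
        exact ⟨by linarith [h1.1], by linarith [h1.2]⟩
      by_cases hxR : 2 * y ∈ R
      · exact Or.inr ⟨hw, hxR, one_dvd _⟩
      · exact Or.inl ⟨hw, (two_mem hS k o y hxR).2 h2, (dvd_two m c y).2 h3⟩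
  · rw [Finset.disjoint_left]
    intro x hx hx'
    rw [mem_cls] at hx
    rw [mem_image] at hx'
    obtain ⟨y, _, rfl⟩ := hx'
    have := hx.2.1
    rw [Int.odd_iff] at this
    omega

theorem pow3_pos (m : ℕ) : (0 : ℤ) < 3 ^ m := by positivity

theorem triv_card (S : Set ℤ) {A B : ℝ} (hAB : A ≤ B) (m : ℕ) (c : ℤ) :
    ((wc S A B (3 ^ m) c).card : ℝ) ≤ (B - A) + 1 := by
  refine (wc_card_le S hAB (pow3_pos m) c).trans ?_
  have h1 : (1 : ℝ) ≤ ((3 ^ m : ℤ) : ℝ) := by
    push_cast
    exact one_le_pow₀ (by norm_num)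
  have h2 : (B - A) / ((3 ^ m : ℤ) : ℝ) ≤ B - A := div_le_self (by linarith) h1
  linarith

/-- equidistribution modulo `3^m` of graded families in windows -/
theorem equi_win {d : ℤ} (hd : Odd d) (hd3 : IsCoprime d 3) {R : Set ℤ} (hR : FC d R) (hRs : SpW R) (m : ℕ) :
    ∃ K : ℝ, 0 < K ∧ ∀ S : ℤ → ℤ → Set ℤ, GF d R S → ∀ A : ℝ, 0 < A → 1001 ≤ Real.log A →
      ∀ k o c c' : ℤ, ((wc (S k o) A (2 * A) (3 ^ m) c).card : ℝ)
        ≤ (wc (S k o) A (2 * A) (3 ^ m) c').card + K / (Real.log A) ^ 2 * A := by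
  obtain ⟨C, hC, he⟩ := equi_oddG 2 hd hd3 hR hRs
  obtain ⟨CR, hCR, hRw⟩ := hRs 2
  set N0 : ℝ := 1002 + (m : ℝ) ^ 2 with hN0
  have hN1 : 1002 ≤ N0 := by rw [hN0]; nlinarith [sq_nonneg (m : ℝ)]
  have hN2 : (m : ℝ) ^ 2 ≤ N0 := by rw [hN0]; linarith
  refine ⟨2 * C + 5 * CR + 3 * N0 ^ 2, by positivity, ?_⟩
  intro S hS
  have hl2 := Real.log_two_gt_d9
  have hl2' := Real.log_two_lt_d9
  set K := 2 * C + 5 * CR + 3 * N0 ^ 2 with hK
  have hKpos : 0 < K := by positivity
  have htriv : ∀ A : ℝ, 0 < A → 1001 ≤ Real.log A → Real.log A ≤ N0 → ∀ k o c c' : ℤ,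
      ((wc (S k o) A (2 * A) (3 ^ m) c).card : ℝ)
        ≤ (wc (S k o) A (2 * A) (3 ^ m) c').card + K / (Real.log A) ^ 2 * A := by
    intro A hA h1 h2 k o c c'
    have h3 := triv_card (S k o) (by linarith : A ≤ 2 * A) m c
    have h4 : 1 ≤ A := by
      have : 0 < Real.log A := by linarith
      exact (Real.log_pos_iff hA.le).1 this |>.le
    have h5 : 2 ≤ K / (Real.log A) ^ 2 := by
      rw [le_div_iff₀ (by have : 0 < Real.log A := by linarith
                          positivity)]
      have : (Real.log A) ^ 2 ≤ N0 ^ 2 := pow_le_pow_left₀ (by linarith) h2 2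
      have h6 : 0 ≤ N0 ^ 2 := by positivity
      rw [hK]; linarith
    have h6 : 2 * A ≤ K / (Real.log A) ^ 2 * A := mul_le_mul_of_nonneg_right h5 hA.le
    have h7 : (0 : ℝ) ≤ (wc (S k o) A (2 * A) (3 ^ m) c').card := Nat.cast_nonneg _
    linarith
  have main : ∀ n : ℕ, ∀ A : ℝ, 0 < A → 1001 ≤ Real.log A → Real.log A ≤ N0 + n * Real.log 2 →
      ∀ k o c c' : ℤ, ((wc (S k o) A (2 * A) (3 ^ m) c).card : ℝ)
        ≤ (wc (S k o) A (2 * A) (3 ^ m) c').card + K / (Real.log A) ^ 2 * A := by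
    intro n
    induction n with
    | zero =>
      intro A hA h1 h2 k o c c'
      exact htriv A hA h1 (by simpa using h2) k o c c'
    | succ n ih =>
      intro A hA h1 h2 k o c c'
      rcases le_or_gt (Real.log A) N0 with h3 | h3
      · exact htriv A hA h1 h3 k o c c'
      · have hlog : Real.log (A / 2) = Real.log A - Real.log 2 := Real.log_div hA.ne' (by norm_num)
        have hih := ih (A / 2) (by linarith) (by rw [hlog]; linarith) (by
          rw [hlog]; push_cast at h2; linarith) (k - 1) o (hv m * c) (hv m * c')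
        have hodd := he S hS A hA (by linarith) m (by linarith) k o c c'
        have hr := (hRw A hA (by linarith)).2
        have e1 : ((wc (S k o) A (2 * A) (3 ^ m) c).card : ℝ)
            ≤ (cls (S k o) A (2 * A) m 1 c).card +
              (wc (S (k - 1) o) (A / 2) (2 * (A / 2)) (3 ^ m) (hv m * c)).card +
              (wc R A (2 * A) 1 0).card := by
          exact_mod_cast parity_le hS m k o A c
        have e2 : ((cls (S k o) A (2 * A) m 1 c').card : ℝ) +
              (wc (S (k - 1) o) (A / 2) (2 * (A / 2)) (3 ^ m) (hv m * c')).card ≤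
            (wc (S k o) A (2 * A) (3 ^ m) c').card + (wc R A (2 * A) 1 0).card := by
          exact_mod_cast parity_ge hS m k o A c'
        set t := Real.log A with ht
        have htpos : 0 < t := by linarith
        have hne : (0 : ℝ) < (t - Real.log 2) ^ 2 := by
          have : 0 < t - Real.log 2 := by linarith
          positivity
        have hsq : 0.998 * t ^ 2 ≤ (t - Real.log 2) ^ 2 := by nlinarith
        have hK1 : K / (Real.log (A / 2)) ^ 2 * (A / 2) ≤ 0.51 * (K / t ^ 2 * A) := by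
          rw [hlog]
          have : K / (t - Real.log 2) ^ 2 ≤ K / (0.998 * t ^ 2) :=
            div_le_div_of_nonneg_left hKpos.le (by positivity) hsq
          have h9 : K / (0.998 * t ^ 2) ≤ 1.01 * (K / t ^ 2) := by
            rw [div_mul_eq_div_div_swap, div_le_iff₀ (by norm_num)]
            have : 0 < K / t ^ 2 := by positivity
            nlinarith
          have h10 : 0 < K / t ^ 2 * A := by positivity
          calc K / (t - Real.log 2) ^ 2 * (A / 2) ≤ (1.01 * (K / t ^ 2)) * (A / 2) :=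
                mul_le_mul_of_nonneg_right (this.trans h9) (by linarith)
            _ = 0.505 * (K / t ^ 2 * A) := by ring
            _ ≤ _ := by linarith
        have hC1 : C / t ^ 2 * (A / (2 * 3 ^ m)) + 2 * (CR / t ^ 2 * A) ≤
            0.49 * (K / t ^ 2 * A) := by
          have h9 : C / 2 + 2 * CR ≤ 0.49 * K := by
            rw [hK]
            have : (0 : ℝ) < 3 * N0 ^ 2 := by positivity
            linarith
          have h10 : 0 < A / t ^ 2 := by positivity
          have h11 := mul_le_mul_of_nonneg_right h9 h10.le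
          have h12 : C / t ^ 2 * (A / (2 * 3 ^ m)) ≤ C / 2 * (A / t ^ 2) := by
            have h13 : (1 : ℝ) ≤ 3 ^ m := one_le_pow₀ (by norm_num)
            have h14 : A / (2 * 3 ^ m) ≤ A / 2 := by
              apply div_le_div_of_nonneg_left hA.le (by norm_num)
              linarith
            calc C / t ^ 2 * (A / (2 * 3 ^ m)) ≤ C / t ^ 2 * (A / 2) :=
                  mul_le_mul_of_nonneg_left h14 (by positivity)
              _ = _ := by ring
          calc C / t ^ 2 * (A / (2 * 3 ^ m)) + 2 * (CR / t ^ 2 * A) ≤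
                C / 2 * (A / t ^ 2) + 2 * (CR / t ^ 2 * A) := by linarith
            _ = (C / 2 + 2 * CR) * (A / t ^ 2) := by ring
            _ ≤ 0.49 * K * (A / t ^ 2) := h11
            _ = _ := by ring
        linarith
  intro A hA h1 k o c c'
  obtain ⟨n, hn⟩ := exists_nat_ge ((Real.log A - N0) / Real.log 2)
  have : Real.log A ≤ N0 + n * Real.log 2 := by
    rw [div_le_iff₀ (by linarith)] at hn; linarith
  exact main n A hA h1 this k o c c'

/-- equidistribution modulo `3^m` of graded families -/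
theorem equi_cum {d : ℤ} (hd : Odd d) (hd3 : IsCoprime d 3) {R : Set ℤ} (hR : FC d R) (hRs : SpW R) (m : ℕ) :
    ∃ K : ℝ, 0 < K ∧ ∀ S : ℤ → ℤ → Set ℤ, GF d R S → ∀ X : ℝ, 2 ≤ X →
      ∀ k o c c' : ℤ, ((wc (S k o) 1 X (3 ^ m) c).card : ℝ)
        ≤ (wc (S k o) 1 X (3 ^ m) c').card + K / (Real.log X) ^ 2 * X := by
  obtain ⟨K, hK, hE⟩ := equi_win hd hd3 hR hRs m
  refine ⟨1002 ^ 2 + 2 * K, by positivity, fun S hS => ?_⟩
  have main : ∀ n : ℕ, ∀ X : ℝ, 2 ≤ X → X ≤ Real.exp 1002 * 2 ^ n → ∀ k o c c' : ℤ,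
      ((wc (S k o) 1 X (3 ^ m) c).card : ℝ)
        ≤ (wc (S k o) 1 X (3 ^ m) c').card + (1002 ^ 2 + 2 * K) / (Real.log X) ^ 2 * X := by
    have base : ∀ X : ℝ, 2 ≤ X → X ≤ Real.exp 1002 → ∀ k o c c' : ℤ,
      ((wc (S k o) 1 X (3 ^ m) c).card : ℝ)
        ≤ (wc (S k o) 1 X (3 ^ m) c').card + (1002 ^ 2 + 2 * K) / (Real.log X) ^ 2 * X := by
      intro X hX hX2 k o c c'
      have h1 := triv_card (S k o) (show (1 : ℝ) ≤ X by linarith) m c
      have h2 : (0 : ℝ) ≤ (wc (S k o) 1 X (3 ^ m) c').card := Nat.cast_nonneg _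
      have h3 : 0 < Real.log X := Real.log_pos (by linarith)
      have h4 : Real.log X ≤ 1002 := by
        rw [Real.log_le_iff_le_exp (by linarith)]; exact hX2
      have h5 : 1 ≤ (1002 ^ 2 + 2 * K) / (Real.log X) ^ 2 := by
        rw [le_div_iff₀ (by positivity), one_mul]
        nlinarith
      have h6 := mul_le_mul_of_nonneg_right h5 (show 0 ≤ X by linarith)
      linarith
    intro n
    induction n with
    | zero => intro X hX hX2; rw [pow_zero, mul_one] at hX2; exact base X hX hX2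
    | succ n ih =>
      intro X hX hX2 k o c c'
      rcases le_or_gt X (Real.exp 1002) with h | h
      · exact base X hX h k o c c'
      have hX0 : 0 < X := by linarith
      have hlog : 1002 < Real.log X := by
        rw [Real.lt_log_iff_exp_lt hX0]; exact h
      have hlA : Real.log (X / 2) = Real.log X - Real.log 2 :=
        Real.log_div hX0.ne' (by norm_num)
      have hlog2 : Real.log 2 < 1 := by have := Real.log_two_lt_d9; linarith
      have hlog2p : 0 < Real.log 2 := Real.log_pos (by norm_num)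
      have hX4 : 4 ≤ X := by
        have := Real.add_one_le_exp (1002 : ℝ)
        linarith
      have i1 := ih (X / 2) (by linarith) (by rw [pow_succ] at hX2; linarith) k o c c'
      have i2 := hE S hS (X / 2) (by linarith) (by linarith) k o c c'
      rw [show 2 * (X / 2) = X by ring] at i2
      have e1 := wc_add (S k o) (show (1 : ℝ) ≤ X / 2 by linarith) (show X / 2 ≤ X by linarith) (3 ^ m) c
      have e2 := wc_add (S k o) (show (1 : ℝ) ≤ X / 2 by linarith) (show X / 2 ≤ X by linarith) (3 ^ m) c'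
      rw [e1, e2]
      push_cast
      have hlA1 : 1001 < Real.log (X / 2) := by linarith
      have hr : 1 / (Real.log (X / 2)) ^ 2 ≤ (101 / 100) / (Real.log X) ^ 2 := by
        rw [div_le_div_iff₀ (by positivity) (by positivity)]
        have : Real.log X ≤ Real.log (X / 2) + 1 := by linarith
        nlinarith
      have hs : (1002 ^ 2 + 2 * K) / (Real.log (X / 2)) ^ 2 * (X / 2) + K / (Real.log (X / 2)) ^ 2 * (X / 2)
          ≤ (1002 ^ 2 + 2 * K) / (Real.log X) ^ 2 * X := by
        have t1 : (1002 ^ 2 + 2 * K) / (Real.log (X / 2)) ^ 2 * (X / 2) +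
            K / (Real.log (X / 2)) ^ 2 * (X / 2) =
            ((1002 ^ 2 + 3 * K) * (X / 2)) * (1 / (Real.log (X / 2)) ^ 2) := by ring
        have t2 : (1002 ^ 2 + 2 * K) / (Real.log X) ^ 2 * X =
            ((1002 ^ 2 + 2 * K) * X * (100 / 101)) * ((101 / 100) / (Real.log X) ^ 2) := by ring
        rw [t1, t2]
        apply mul_le_mul _ hr (by positivity) (by positivity)
        have : 0 < K * X := by positivity
        nlinarith
      linarith
  intro X hX k o c c'
  obtain ⟨n, hn⟩ := pow_unbounded_of_one_lt X (show (1 : ℝ) < 2 by norm_num)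
  refine main n X hX ?_ k o c c'
  have : (1 : ℝ) ≤ Real.exp 1002 := Real.one_le_exp (by norm_num)
  have h2 : (0 : ℝ) < 2 ^ n := by positivity
  nlinarith

end Pool.Agent.R344.RL
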