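import Pool.Agent.R344.RL.A

/-!
Residues on the levels, part 2: the uniform law modulo powers of 3.
-/

set_option autoImplicit false

namespace Pool.Agent.R344.RL

open Finset Filter Topology
open Pool.Agent.H499R2.LT
open Pool.Agent.H499R2.ND (Td wc mem_wc wc_card_le cls mem_cls)
open Pool.Agent.R344.LS

/-- the part of a cell in a residue class -/
noncomputable def sq (d : ℤ) (F : Finset ℤ) (q c : ℤ) (w : ℕ × ℤ) : ℝ :=
  ∑ x ∈ (LC d F w.1 w.2).filter (fun x => q ∣ x - c), (1 : ℝ) / x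

theorem biU_q {d : ℤ} (hd : Odd d) (F : Finset ℤ) (q c : ℤ) (W : Finset (ℕ × ℤ)) :
    ∑ w ∈ W, sq d F q c w =
      ∑ x ∈ W.biUnion (fun w => (LC d F w.1 w.2).filter (fun x => q ∣ x - c)), (1 : ℝ) / x := by
  classical
  rw [sum_biUnion]
  · rfl
  · intro w _ w' _ hne
    rw [Function.onFun, disjoint_left]
    intro x hx hx'
    rw [mem_filter, mem_LC hd] at hx hx'
    apply hne
    ext
    · rw [← hx.1.2.2.1, ← hx'.1.2.2.1]
    · rw [← hx.1.2.2.2, ← hx'.1.2.2.2]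

/-- one-sided comparison -/
theorem one_q {d : ℤ} (hd : Odd d) {F : Finset ℤ} {K : ℝ} (hK : 0 < K) {q : ℤ}
    (hE : ∀ (W : Set (ℤ × ℤ)) (X : ℝ), 2 ≤ X → ∀ c c' : ℤ, ((wc (FW d F W 0 0) 1 X q c).card : ℝ) ≤
      (wc (FW d F W 0 0) 1 X q c').card + K / (Real.log X) ^ 2 * X)
    {X0 : ℕ} (hX0 : 3 ≤ X0) (W : Finset (ℕ × ℤ)) (hW : ∀ w ∈ W, ∀ y ∈ LC d F w.1 w.2, (X0 : ℤ) ≤ y)
    (c c' : ℤ) : ∑ w ∈ W, sq d F q c w ≤ ∑ w ∈ W, sq d F q c' w + 5 * K / Real.log X0 := by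
  classical
  rw [biU_q hd, biU_q hd]
  have hcard : ∀ (c : ℤ) (X : ℝ), (W.biUnion (fun w => (LC d F w.1 w.2).filter (fun x => q ∣ x - c))).filter
      (fun x : ℤ => (x : ℝ) < X) = wc (FW d F {p | ∃ w ∈ W, p = ((w.1 : ℤ), w.2)} 0 0) 1 X q c := by
    intro c X
    ext x
    rw [mem_filter, mem_biUnion, mem_wc]
    unfold FW
    rw [Set.mem_ofPred_eq, Set.mem_ofPred_eq]
    constructor
    · rintro ⟨⟨w, hw, hx⟩, hX⟩
      rw [mem_filter, mem_LC hd] at hx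
      obtain ⟨⟨h1, h2, h3, h4⟩, h5⟩ := hx
      refine ⟨⟨by exact_mod_cast (by omega : 1 ≤ x), hX⟩, ⟨h2, w, hw, ?_⟩, h5⟩
      rw [h3, h4, sub_zero, sub_zero]
    · rintro ⟨⟨h1, hX⟩, ⟨h2, w, hw, h3⟩, h5⟩
      rw [sub_zero, sub_zero, Prod.mk.injEq] at h3
      have h1' : 1 ≤ x := by exact_mod_cast h1
      refine ⟨⟨w, hw, ?_⟩, hX⟩
      rw [mem_filter, mem_LC hd]
      exact ⟨⟨by omega, h2, by exact_mod_cast h3.1, h3.2⟩, h5⟩
  apply cmp hK.le hX0
  · intro x hx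
    rw [mem_biUnion] at hx
    obtain ⟨w, hw, hx⟩ := hx
    exact hW w hw x (mem_filter.1 hx).1
  · intro x hx
    rw [mem_biUnion] at hx
    obtain ⟨w, hw, hx⟩ := hx
    exact hW w hw x (mem_filter.1 hx).1
  · intro X hX
    rw [hcard, hcard]
    exact hE _ X hX c c'

/-- two-sided comparison, with absolute values -/
theorem two_q {d : ℤ} (hd : Odd d) {F : Finset ℤ} {K : ℝ} (hK : 0 < K) {q : ℤ}
    (hE : ∀ (W : Set (ℤ × ℤ)) (X : ℝ), 2 ≤ X → ∀ c c' : ℤ, ((wc (FW d F W 0 0) 1 X q c).card : ℝ) ≤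
      (wc (FW d F W 0 0) 1 X q c').card + K / (Real.log X) ^ 2 * X)
    {X0 : ℕ} (hX0 : 3 ≤ X0) (W : Finset (ℕ × ℤ)) (hW : ∀ w ∈ W, ∀ y ∈ LC d F w.1 w.2, (X0 : ℤ) ≤ y)
    (c c' : ℤ) : ∑ w ∈ W, |sq d F q c w - sq d F q c' w| ≤ 10 * K / Real.log X0 := by
  classical
  rw [← sum_filter_add_sum_filter_not W (fun w => 0 ≤ sq d F q c w - sq d F q c' w)]
  have h1 := one_q hd hK hE hX0 (W.filter (fun w => 0 ≤ sq d F q c w - sq d F q c' w))
    (fun w hw => hW w (mem_filter.1 hw).1) c c'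
  have h2 := one_q hd hK hE hX0 (W.filter (fun w => ¬ 0 ≤ sq d F q c w - sq d F q c' w))
    (fun w hw => hW w (mem_filter.1 hw).1) c' c
  have e1 : ∑ w ∈ W.filter (fun w => 0 ≤ sq d F q c w - sq d F q c' w), |sq d F q c w - sq d F q c' w| =
      ∑ w ∈ W.filter (fun w => 0 ≤ sq d F q c w - sq d F q c' w), sq d F q c w -
      ∑ w ∈ W.filter (fun w => 0 ≤ sq d F q c w - sq d F q c' w), sq d F q c' w := by
    rw [← sum_sub_distrib]
    apply sum_congr rfl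
    intro w hw
    rw [abs_of_nonneg (mem_filter.1 hw).2]
  have e2 : ∑ w ∈ W.filter (fun w => ¬ 0 ≤ sq d F q c w - sq d F q c' w), |sq d F q c w - sq d F q c' w| =
      ∑ w ∈ W.filter (fun w => ¬ 0 ≤ sq d F q c w - sq d F q c' w), sq d F q c' w -
      ∑ w ∈ W.filter (fun w => ¬ 0 ≤ sq d F q c w - sq d F q c' w), sq d F q c w := by
    rw [← sum_sub_distrib]
    apply sum_congr rfl
    intro w hw
    rw [abs_of_neg (not_le.1 (mem_filter.1 hw).2)]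
    ring
  rw [e1, e2]
  have e3 : 10 * K / Real.log X0 = 5 * K / Real.log X0 + 5 * K / Real.log X0 := by ring
  rw [e3]
  linarith

/-- decomposition of a cell into residue classes -/
theorem mm_split (d : ℤ) (F : Finset ℤ) {q : ℕ} (hq : 0 < q) (w : ℕ × ℤ) :
    mm d F w.1 w.2 = ∑ i ∈ range q, sq d F (q : ℤ) (i : ℤ) w := by
  classical
  unfold mm sq
  rw [← Finset.sum_fiberwise_of_maps_to (s := LC d F w.1 w.2) (t := range q) (g := fun x : ℤ => (x % q).toNat)]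
  · apply sum_congr rfl
    intro i hi
    rw [mem_range] at hi
    apply sum_congr _ fun _ _ => rfl
    apply filter_congr
    intro x _
    have hq0 : (0 : ℤ) < q := by exact_mod_cast hq
    have h1 := Int.emod_nonneg x hq0.ne'
    constructor
    · intro h
      have h2 : x % q = i := by omega
      exact ⟨x / q, by have := Int.emod_add_mul_ediv x q; rw [h2] at this; linarith⟩
    · rintro ⟨t, ht⟩
      have h2 : x = i + q * t := by linarith
      rw [h2, Int.add_mul_emod_self_left, Int.emod_eq_of_lt (by omega) (by omega)]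
      simp
  · intro x _
    have hq0 : (0 : ℤ) < q := by exact_mod_cast hq
    have h1 := Int.emod_nonneg x hq0.ne'
    have h2 := Int.emod_lt_of_pos x hq0
    rw [mem_range]
    omega

/-- equidistribution modulo `3^m` over the cells of large level -/
theorem unif3 {d : ℤ} (hd : Odd d) (hd3 : IsCoprime d 3) (F : Finset ℤ) (m : ℕ) (c : ℤ) (ε : ℝ) (hε : 0 < ε) :
    ∃ k0 : ℕ, ∀ S : Finset (ℕ × ℤ), (∀ v ∈ S, k0 ≤ v.1) →
      ∑ v ∈ S, |sq d F (3 ^ m) c v - mm d F v.1 v.2 / 3 ^ m| ≤ ε := by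
  classical
  obtain ⟨K, hK, hE'⟩ := equi_cum hd hd3 (RF_FC d F) (RF_SpW hd hd3 F) m
  have hE : ∀ (W : Set (ℤ × ℤ)) (X : ℝ), 2 ≤ X → ∀ c c' : ℤ, ((wc (FW d F W 0 0) 1 X (3 ^ m) c).card : ℝ) ≤
      (wc (FW d F W 0 0) 1 X (3 ^ m) c').card + K / (Real.log X) ^ 2 * X :=
    fun W X hX c c' => hE' _ (GF_FW d F W) X hX 0 0 c c'
  obtain ⟨X0, hX0, hX1⟩ := log_large (C := 10 * K) hε 3
  refine ⟨HX d F X0 + 1, fun S hS => ?_⟩
  have hbig : ∀ w ∈ S, ∀ y ∈ LC d F w.1 w.2, (X0 : ℤ) ≤ y := fun w hw =>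
    big hd (Or.inl (by have := hS w hw; omega))
  have hp : (0 : ℝ) < 3 ^ m := by positivity
  have h1 : ∀ v ∈ S, |sq d F (3 ^ m) c v - mm d F v.1 v.2 / 3 ^ m| ≤
      (∑ i ∈ range (3 ^ m), |sq d F (3 ^ m) c v - sq d F (3 ^ m) (i : ℤ) v|) / 3 ^ m := by
    intro v _
    have e : sq d F (3 ^ m) c v - mm d F v.1 v.2 / 3 ^ m =
        (∑ i ∈ range (3 ^ m), (sq d F (3 ^ m) c v - sq d F (3 ^ m) (i : ℤ) v)) / 3 ^ m := by
      have h2 := mm_split d F (q := 3 ^ m) (by positivity) v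
      push_cast at h2
      rw [h2, sum_sub_distrib, sum_const, card_range, nsmul_eq_mul]
      push_cast
      field_simp
    rw [e, abs_div, abs_of_pos hp]
    exact div_le_div_of_nonneg_right (abs_sum_le_sum_abs _ _) hp.le
  refine (sum_le_sum h1).trans ?_
  rw [← sum_div, sum_comm, div_le_iff₀ hp]
  calc ∑ i ∈ range (3 ^ m), ∑ v ∈ S, |sq d F (3 ^ m) c v - sq d F (3 ^ m) (i : ℤ) v| ≤
      ∑ i ∈ range (3 ^ m), ε := by
        apply sum_le_sum
        intro i _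
        exact (two_q hd hK hE hX0 S hbig c i).trans hX1
    _ = ε * 3 ^ m := by
        rw [sum_const, card_range, nsmul_eq_mul]
        push_cast
        ring

/-- the uniform law modulo `3^m` -/
theorem law3 {d : ℤ} (hd : Odd d) (hd3 : IsCoprime d 3) (F : Finset ℤ) {cc : ℝ}
    (hc : Tendsto (AT d F) atTop (𝓝 cc)) (m : ℕ) (c : ℤ) (B ε : ℝ) (hε : 0 < ε) :
    ∃ k0 : ℕ, ∀ S : Finset (ℕ × ℤ), Pot S B → (∀ v ∈ S, k0 ≤ v.1) →
      ∑ v ∈ S, |sq d F (3 ^ m) c v - cc / 3 ^ m * G v.1 v.2| ≤ ε := by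
  obtain ⟨k1, hk1⟩ := unif3 hd hd3 F m c (ε / 2) (by positivity)
  obtain ⟨k2, hk2⟩ := law_of_lim hd hd3 F hc B (ε / 2) (by positivity)
  refine ⟨max k1 k2, fun S hB hS => ?_⟩
  have g1 := hk1 S fun v hv => (le_max_left _ _).trans (hS v hv)
  have g2 := hk2 S hB fun v hv => (le_max_right _ _).trans (hS v hv)
  have hp : (1 : ℝ) ≤ 3 ^ m := one_le_pow₀ (by norm_num)
  calc _ ≤ ∑ v ∈ S, (|sq d F (3 ^ m) c v - mm d F v.1 v.2 / 3 ^ m| + |mm d F v.1 v.2 - cc * G v.1 v.2|) := by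
        apply sum_le_sum
        intro v _
        have e : sq d F (3 ^ m) c v - cc / 3 ^ m * G v.1 v.2 = (sq d F (3 ^ m) c v - mm d F v.1 v.2 / 3 ^ m) +
            (mm d F v.1 v.2 - cc * G v.1 v.2) / 3 ^ m := by ring
        rw [e]
        refine (abs_add_le _ _).trans ?_
        rw [abs_div, abs_of_pos (show (0 : ℝ) < 3 ^ m by positivity)]
        have := div_le_self (abs_nonneg (mm d F v.1 v.2 - cc * G v.1 v.2)) hp
        linarith
    _ ≤ ε := by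
        rw [sum_add_distrib]
        linarith

end Pool.Agent.R344.RL
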