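import Pool.Agent.R344.RL.B

/-!
Residues on the levels, part 3: the uniform law modulo `2^a 3^m`.
-/

set_option autoImplicit false

namespace Pool.Agent.R344.RL

open Finset Filter Topology
open Pool.Agent.H499R2.LT
open Pool.Agent.H499R2.ND (Td)
open Pool.Agent.R344.LS

/-- even residues -/
theorem sq_even {d : ℤ} (hd : Odd d) {F : Finset ℤ} {k : ℕ} {o : ℤ}
    (h1 : ∀ y ∈ LC d F k o, (M0 d F : ℤ) ≤ y) (q r : ℤ) :
    sq d F (2 * q) (2 * r) (k + 1, o) = sq d F q r (k, o) / 2 := by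
  classical
  unfold sq
  simp only
  rw [sum_div]
  symm
  apply sum_nbij' (fun y => 2 * y) (fun x => x / 2)
  · intro y hy
    rw [mem_filter] at hy
    obtain ⟨hy, t, ht⟩ := hy
    have hy1 := h1 y hy
    rw [mem_LC hd] at hy
    obtain ⟨g1, g2, g3, g4⟩ := hy
    have hyF : (2 * y) ∉ F := fun h => by
      have := M0_F (d := d) h
      omega
    have hT : Td d (2 * y) = y := by
      have := Td_even (d := d) (x := 2 * y) (by omega)
      omega
    have hR : (2 * y) ∈ RR d F := (RR_step hyF).2 (by rw [hT]; exact g2)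
    rw [mem_filter, mem_LC hd]
    refine ⟨⟨by omega, hR, ?_, ?_⟩, t, ?_⟩
    · rw [ht_step hyF hR, hT, g3]
    · rw [ho_step hyF hR, hT, if_pos (by omega), g4, zero_add]
    · linear_combination 2 * ht
  · intro x hx
    rw [mem_filter, mem_LC hd] at hx
    obtain ⟨⟨g1, g2, g3, g4⟩, t, ht⟩ := hx
    have g5 : x % 2 = 0 := by
      have : x = 2 * (q * t + r) := by linear_combination ht
      omega
    have hxF : x ∉ F := fun h => by
      have := (ht_zero_iff g2).2 h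
      omega
    have hT : Td d x = x / 2 := by
      have := Td_even (d := d) g5
      omega
    have e1 := ht_step hxF g2
    have e2 := ho_step hxF g2
    rw [if_pos g5, hT] at e2
    rw [hT] at e1
    rw [mem_filter, mem_LC hd]
    refine ⟨⟨by omega, by rw [← hT]; exact (RR_step hxF).1 g2, by omega, by omega⟩, t, ?_⟩
    have h6 : 2 * (x / 2) = x := by omega
    have h7 : 2 * (x / 2 - r) = 2 * (q * t) := by linear_combination ht + h6
    exact mul_left_cancel₀ (by norm_num) h7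
  · intro y _
    show 2 * y / 2 = y
    omega
  · intro x hx
    rw [mem_filter] at hx
    obtain ⟨_, t, ht⟩ := hx
    have g5 : x % 2 = 0 := by
      have : x = 2 * (q * t + r) := by linear_combination ht
      omega
    show 2 * (x / 2) = x
    omega
  · intro y hy
    have hy0 : (0 : ℝ) < y := by exact_mod_cast ((mem_LC hd).1 (mem_filter.1 hy).1).1
    push_cast
    field_simp

/-- odd residues -/
theorem sq_odd {d : ℤ} (hd : Odd d) {F : Finset ℤ} {k : ℕ} {o : ℤ}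
    (h2 : ∀ y ∈ LC d F k (o - 1), (M0 d F : ℤ) ≤ y) (h3 : ∀ y ∈ LC d F (k + 1) o, (M0 d F : ℤ) ≤ y) (q r s : ℤ) (hs : 2 * s = 3 * r + d) (hr : r % 2 = 1) :
    sq d F (2 * q) r (k + 1, o) =
      ∑ y ∈ (LC d F k (o - 1)).filter (fun x => 3 * q ∣ x - s), (3 : ℝ) / (2 * y - d) := by
  classical
  have hd2 : d % 2 = 1 := Int.odd_iff.1 hd
  have hM : d.natAbs + 10 ≤ M0 d F := by unfold M0; omega
  unfold sq
  simp only
  symm
  have key : ∀ y : ℤ, 3 * q ∣ y - s → 3 * ((2 * y - d) / 3) = 2 * y - d ∧ 2 * q ∣ (2 * y - d) / 3 - r := by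
    rintro y ⟨t, ht⟩
    have e1 : 2 * y - d = 3 * (2 * q * t + r) := by linear_combination 2 * ht + hs
    have e2 : (2 * y - d) / 3 = 2 * q * t + r := by rw [e1]; omega
    refine ⟨by rw [e2, e1], t, by rw [e2]; ring⟩
  apply sum_nbij' (fun y => (2 * y - d) / 3) (fun x => (3 * x + d) / 2)
  · intro y hy
    rw [mem_filter] at hy
    obtain ⟨hy, hyq⟩ := hy
    obtain ⟨k1, k2⟩ := key y hyq
    have hy1 := h2 y hy
    rw [mem_LC hd] at hy
    obtain ⟨g1, g2, g3, g4⟩ := hy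
    show (2 * y - d) / 3 ∈ _
    generalize hx : (2 * y - d) / 3 = x at k1 k2 ⊢
    have hxo : ¬ x % 2 = 0 := by omega
    have hxF : x ∉ F := fun h => by
      have := M0_F (d := d) h
      omega
    have hT : Td d x = y := by
      have := Td_odd hd hxo
      omega
    have hR : x ∈ RR d F := (RR_step hxF).2 (by rw [hT]; exact g2)
    rw [mem_filter, mem_LC hd]
    refine ⟨⟨by omega, hR, ?_, ?_⟩, k2⟩
    · rw [ht_step hxF hR, hT, g3]
    · rw [ho_step hxF hR, hT, if_neg hxo, g4]; ring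
  · intro x hx
    rw [mem_filter] at hx
    obtain ⟨hx, t, ht⟩ := hx
    have hx3 := h3 x hx
    rw [mem_LC hd] at hx
    obtain ⟨g1, g2, g3, g4⟩ := hx
    have g5 : ¬ x % 2 = 0 := by
      have : x = 2 * (q * t) + r := by linear_combination ht
      omega
    have hxF : x ∉ F := fun h => by
      have := (ht_zero_iff g2).2 h
      omega
    have hT2 := Td_odd hd g5
    have hT : Td d x = (3 * x + d) / 2 := by omega
    have e1 := ht_step hxF g2
    have e2 := ho_step hxF g2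
    rw [if_neg g5] at e2
    show (3 * x + d) / 2 ∈ _
    rw [← hT, mem_filter, mem_LC hd]
    refine ⟨⟨by omega, (RR_step hxF).1 g2, by omega, by omega⟩, t, ?_⟩
    have h7 : 2 * (Td d x - s) = 2 * (3 * q * t) := by linear_combination hT2 - hs + 3 * ht
    exact mul_left_cancel₀ (by norm_num) h7
  · intro y hy
    rw [mem_filter] at hy
    obtain ⟨k1, _⟩ := key y hy.2
    show (3 * ((2 * y - d) / 3) + d) / 2 = y
    omega
  · intro x hx
    rw [mem_filter] at hx
    obtain ⟨_, t, ht⟩ := hx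
    have g5 : ¬ x % 2 = 0 := by
      have : x = 2 * (q * t) + r := by linear_combination ht
      omega
    show (2 * ((3 * x + d) / 2) - d) / 3 = x
    omega
  · intro y hy
    rw [mem_filter] at hy
    obtain ⟨hy, hyq⟩ := hy
    obtain ⟨k1, _⟩ := key y hyq
    have hy1 := h2 y hy
    show (3 : ℝ) / (2 * y - d) = 1 / (((2 * y - d) / 3 : ℤ) : ℝ)
    generalize (2 * y - d) / 3 = x at k1 ⊢
    have hx0 : 0 < x := by omega
    have hx0' : (0 : ℝ) < x := by exact_mod_cast hx0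
    have : (2 : ℝ) * y - d = 3 * x := by exact_mod_cast k1.symm
    rw [this]
    field_simp

theorem sq_odd_le {d : ℤ} (hd : Odd d) {F : Finset ℤ} {k : ℕ} {o : ℤ}
    (h2 : ∀ y ∈ LC d F k (o - 1), (M0 d F : ℤ) ≤ y) (h3 : ∀ y ∈ LC d F (k + 1) o, (M0 d F : ℤ) ≤ y) (q r s : ℤ) (hs : 2 * s = 3 * r + d) (hr : r % 2 = 1) :
    |sq d F (2 * q) r (k + 1, o) - 3 / 2 * sq d F (3 * q) s (k, o - 1)| ≤
      3 * |(d : ℝ)| * ∑ y ∈ LC d F k (o - 1), 1 / (y : ℝ) ^ 2 := by
  classical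
  rw [sq_odd hd h2 h3 q r s hs hr]
  have hM : d.natAbs + 10 ≤ M0 d F := by unfold M0; omega
  unfold sq
  simp only
  rw [mul_sum, ← sum_sub_distrib, mul_sum]
  refine (abs_sum_le_sum_abs _ _).trans ?_
  refine (sum_le_sum (g := fun y : ℤ => 3 * |(d : ℝ)| * (1 / (y : ℝ) ^ 2)) ?_).trans
    (sum_le_sum_of_subset_of_nonneg (filter_subset _ _) fun y _ _ => by positivity)
  intro y hy
  have hy1 := h2 y (mem_filter.1 hy).1
  have hyd : (d.natAbs : ℤ) + 10 ≤ y := by omega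
  have hyd' : |(d : ℝ)| + 10 ≤ y := by
    have e : |(d : ℝ)| = ((d.natAbs : ℤ) : ℝ) := by
      rw [Int.natCast_natAbs, Int.cast_abs]
    rw [e]
    exact_mod_cast hyd
  have hd0 := abs_nonneg (d : ℝ)
  have hd1 := le_abs_self (d : ℝ)
  have hy0 : (0 : ℝ) < y := by linarith
  have hy2 : (y : ℝ) ≤ 2 * y - d := by linarith
  have hy3 : (0 : ℝ) < 2 * y - d := by linarith
  have e : (3 : ℝ) / (2 * y - d) - 3 / 2 * (1 / y) = 3 * d / (2 * y * (2 * y - d)) := by
    field_simp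
    ring
  rw [e, abs_div, abs_mul, abs_of_pos (show (0 : ℝ) < 3 by norm_num),
    abs_of_pos (show 0 < 2 * (y : ℝ) * (2 * y - d) by positivity), mul_one_div]
  apply div_le_div_of_nonneg_left (by positivity) (by positivity)
  nlinarith

/-- shifted sets of cells -/
noncomputable def shf (β : ℕ) (S : Finset (ℕ × ℤ)) : Finset (ℕ × ℤ) := S.image fun v => (v.1 - 1, v.2 - β)

theorem shf_inj {β : ℕ} {S : Finset (ℕ × ℤ)} (hS : ∀ v ∈ S, 1 ≤ v.1) :
    Set.InjOn (fun v : ℕ × ℤ => (v.1 - 1, v.2 - (β : ℤ))) S := by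
  intro v hv w hw h
  have h1 := hS v hv
  have h2 := hS w hw
  simp only [Prod.mk.injEq] at h
  ext
  · omega
  · omega

theorem shf_pot {β : ℕ} {S : Finset (ℕ × ℤ)} (hS : ∀ v ∈ S, 1 ≤ v.1) {B : ℝ} (hB : Pot S B) : Pot (shf β S) B := by
  classical
  intro a b
  unfold shf
  rw [sum_filter, sum_image (shf_inj hS)]
  refine le_trans (le_of_eq ?_) (hB (a + 1) (b + β))
  rw [sum_filter]
  apply sum_congr rfl
  intro v hv
  have h1 := hS v hv
  by_cases h : a + 1 ≤ v.1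
  · rw [if_pos (by show a ≤ v.1 - 1; omega), if_pos h]
    congr 1
    · show v.1 - 1 - a = v.1 - (a + 1)
      omega
    · push_cast
      ring
  · rw [if_neg (by show ¬ a ≤ v.1 - 1; omega), if_neg h]

/-- THE UNIFORM LAW MODULO `2^a 3^m` -/
theorem law23 {d : ℤ} (hd : Odd d) (hd3 : IsCoprime d 3) (F : Finset ℤ) {cc : ℝ} (hcc : 0 ≤ cc)
    (hc : Tendsto (AT d F) atTop (𝓝 cc)) (a : ℕ) : ∀ (m : ℕ) (r : ℤ) (B ε : ℝ), 0 < ε →
    ∃ k0 : ℕ, ∀ S : Finset (ℕ × ℤ), Pot S B → (∀ v ∈ S, k0 ≤ v.1) →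
      ∑ v ∈ S, |sq d F (2 ^ a * 3 ^ m) r v - cc / (2 ^ a * 3 ^ m) * G v.1 v.2| ≤ ε := by
  classical
  induction a with
  | zero =>
    intro m r B ε hε
    obtain ⟨k0, hk0⟩ := law3 hd hd3 F hc m r B ε hε
    refine ⟨k0, fun S hB hS => ?_⟩
    simpa only [pow_zero, one_mul] using hk0 S hB hS
  | succ a ih =>
    intro m r B ε hε
    have hp : (1 : ℝ) ≤ 2 ^ (a + 1) * 3 ^ m :=
      one_le_mul_of_one_le_of_one_le (one_le_pow₀ (by norm_num)) (one_le_pow₀ (by norm_num))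
    have hdiv : ∀ x : ℝ, 0 ≤ x → x / (2 ^ (a + 1) * 3 ^ m) ≤ x := fun x hx => div_le_self hx hp
    rcases Int.emod_two_eq_zero_or_one r with hr | hr
    · -- even
      obtain ⟨r', rfl⟩ : ∃ r', r = 2 * r' := ⟨r / 2, by omega⟩
      obtain ⟨k1, hk1⟩ := ih m r' B (ε / 2) (by positivity)
      obtain ⟨k2, hk2⟩ := shift_lim 1 0 (by omega) B (ε / (2 * (cc + 1))) (by positivity)
      refine ⟨max (k1 + 1) (max k2 (HX d F (M0 d F) + 2)), fun S hB hS => ?_⟩
      have hS1 : ∀ v ∈ S, 1 ≤ v.1 := fun v hv => by have := hS v hv; omega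
      have g1 := hk1 (shf 0 S) (shf_pot hS1 hB) (by
        intro v hv
        unfold shf at hv
        rw [mem_image] at hv
        obtain ⟨w, hw, rfl⟩ := hv
        have := hS w hw
        show k1 ≤ w.1 - 1
        omega)
      unfold shf at g1
      rw [sum_image (shf_inj hS1)] at g1
      have g2 := hk2 S hB fun v hv => by have := hS v hv; omega
      have key : ∀ v ∈ S, |sq d F (2 ^ (a + 1) * 3 ^ m) (2 * r') v - cc / (2 ^ (a + 1) * 3 ^ m) * G v.1 v.2| ≤
          |sq d F (2 ^ a * 3 ^ m) r' (v.1 - 1, v.2 - ((0 : ℕ) : ℤ)) -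
            cc / (2 ^ a * 3 ^ m) * G (v.1 - 1) (v.2 - ((0 : ℕ) : ℤ))| +
          cc * |G (v.1 - 1) (v.2 - ((0 : ℕ) : ℤ)) - G v.1 v.2| := by
        rintro ⟨k, o⟩ hv
        have h3 := hS _ hv
        simp only at h3 ⊢
        obtain ⟨k', rfl⟩ : ∃ k', k = k' + 1 := ⟨k - 1, by omega⟩
        rw [Nat.add_sub_cancel, Nat.cast_zero, sub_zero]
        have h4 : ∀ y ∈ LC d F k' o, (M0 d F : ℤ) ≤ y := big hd (Or.inl (by omega))
        have e1 : (2 : ℤ) ^ (a + 1) * 3 ^ m = 2 * (2 ^ a * 3 ^ m) := by ring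
        rw [e1, sq_even hd h4]
        have e2 : sq d F (2 ^ a * 3 ^ m) r' (k', o) / 2 - cc / (2 ^ (a + 1) * 3 ^ m) * G (k' + 1) o =
            (sq d F (2 ^ a * 3 ^ m) r' (k', o) - cc / (2 ^ a * 3 ^ m) * G k' o) / 2 +
            (cc * (G k' o - G (k' + 1) o)) / (2 ^ (a + 1) * 3 ^ m) := by
          have : (2 : ℝ) ^ (a + 1) = 2 * 2 ^ a := by ring
          rw [this]
          field_simp
          ring
        rw [e2]
        refine (abs_add_le _ _).trans (add_le_add ?_ ?_)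
        · rw [abs_div, abs_of_pos (show (0 : ℝ) < 2 by norm_num)]
          linarith [abs_nonneg (sq d F (2 ^ a * 3 ^ m) r' (k', o) - cc / (2 ^ a * 3 ^ m) * G k' o)]
        · rw [abs_div, abs_mul, abs_of_nonneg hcc, abs_of_pos (show (0 : ℝ) < 2 ^ (a + 1) * 3 ^ m by positivity)]
          exact hdiv _ (by positivity)
      refine (sum_le_sum key).trans ?_
      rw [sum_add_distrib, ← mul_sum]
      have h5 : cc * ∑ v ∈ S, |G (v.1 - 1) (v.2 - ((0 : ℕ) : ℤ)) - G v.1 v.2| ≤ ε / 2 := by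
        calc _ ≤ cc * (ε / (2 * (cc + 1))) := mul_le_mul_of_nonneg_left g2 hcc
          _ ≤ ε / 2 := by
            rw [← mul_div_assoc, div_le_div_iff₀ (by positivity) (by norm_num)]
            nlinarith
      linarith
    · -- odd
      have hd2 : d % 2 = 1 := Int.odd_iff.1 hd
      obtain ⟨s, hs⟩ : ∃ s, 2 * s = 3 * r + d := ⟨(3 * r + d) / 2, by omega⟩
      obtain ⟨k1, hk1⟩ := ih (m + 1) s B (ε / 6) (by positivity)
      obtain ⟨k2, hk2⟩ := shift_lim 1 1 (by omega) B (ε / (4 * (cc + 1))) (by positivity)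
      obtain ⟨X0, hX0⟩ : ∃ X0 : ℕ, 2 ≤ X0 ∧ M0 d F ≤ X0 ∧ 3 * |(d : ℝ)| * (2 / X0) ≤ ε / 4 := by
        have h1 : Tendsto (fun X : ℕ => 3 * |(d : ℝ)| * (2 / (X : ℝ))) atTop (𝓝 (3 * |(d : ℝ)| * 0)) :=
          Tendsto.const_mul _ (tendsto_const_nhds.div_atTop tendsto_natCast_atTop_atTop)
        rw [mul_zero] at h1
        obtain ⟨X0, hX0⟩ := eventually_atTop.1 (((eventually_ge_atTop 2).and (eventually_ge_atTop (M0 d F))).and
          (h1.eventually (ge_mem_nhds (show 0 < ε / 4 by positivity))))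
        have := hX0 X0 le_rfl
        exact ⟨X0, this.1.1, this.1.2, this.2⟩
      obtain ⟨hX2, hXM, hX4⟩ := hX0
      refine ⟨max (k1 + 1) (max k2 (HX d F X0 + 2)), fun S hB hS => ?_⟩
      have hS1 : ∀ v ∈ S, 1 ≤ v.1 := fun v hv => by have := hS v hv; omega
      have g1 := hk1 (shf 1 S) (shf_pot hS1 hB) (by
        intro v hv
        unfold shf at hv
        rw [mem_image] at hv
        obtain ⟨w, hw, rfl⟩ := hv
        have := hS w hw
        show k1 ≤ w.1 - 1
        omega)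
      have g3 : ∑ w ∈ shf 1 S, ∑ y ∈ LC d F w.1 w.2, (1 : ℝ) / (y : ℝ) ^ 2 ≤ (2 : ℝ) / (X0 : ℝ) := by
        rw [← sum_biUnion]
        · apply sq_tail hX2
          intro x hx
          rw [mem_biUnion] at hx
          obtain ⟨w, hw, hx⟩ := hx
          unfold shf at hw
          rw [mem_image] at hw
          obtain ⟨v, hv, rfl⟩ := hw
          have := hS v hv
          exact big hd (X0 := X0) (Or.inl (by show _ < v.1 - 1; omega)) x hx
        · intro w _ w' _ hne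
          rw [Function.onFun, disjoint_left]
          intro x hx hx'
          rw [mem_LC hd] at hx hx'
          apply hne
          ext
          · rw [← hx.2.2.1, ← hx'.2.2.1]
          · rw [← hx.2.2.2, ← hx'.2.2.2]
      unfold shf at g1 g3
      rw [sum_image (shf_inj hS1)] at g1 g3
      have g2 := hk2 S hB fun v hv => by have := hS v hv; omega
      have key : ∀ v ∈ S, |sq d F (2 ^ (a + 1) * 3 ^ m) r v - cc / (2 ^ (a + 1) * 3 ^ m) * G v.1 v.2| ≤
          3 * |(d : ℝ)| * ∑ y ∈ LC d F (v.1 - 1) (v.2 - ((1 : ℕ) : ℤ)), 1 / (y : ℝ) ^ 2 +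
          3 / 2 * |sq d F (2 ^ a * 3 ^ (m + 1)) s (v.1 - 1, v.2 - ((1 : ℕ) : ℤ)) -
            cc / (2 ^ a * 3 ^ (m + 1)) * G (v.1 - 1) (v.2 - ((1 : ℕ) : ℤ))| +
          cc * |G (v.1 - 1) (v.2 - ((1 : ℕ) : ℤ)) - G v.1 v.2| := by
        rintro ⟨k, o⟩ hv
        have h3 := hS _ hv
        simp only at h3 ⊢
        obtain ⟨k', rfl⟩ : ∃ k', k = k' + 1 := ⟨k - 1, by omega⟩
        rw [Nat.add_sub_cancel, Nat.cast_one]
        have h4 : ∀ y ∈ LC d F k' (o - 1), (M0 d F : ℤ) ≤ y := fun y hy =>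
          le_trans (by exact_mod_cast hXM) (big hd (X0 := X0) (Or.inl (by omega)) y hy)
        have e1 : (2 : ℤ) ^ (a + 1) * 3 ^ m = 2 * (2 ^ a * 3 ^ m) := by ring
        have e3 : (3 : ℤ) * (2 ^ a * 3 ^ m) = 2 ^ a * 3 ^ (m + 1) := by ring
        have h4' : ∀ y ∈ LC d F (k' + 1) o, (M0 d F : ℤ) ≤ y := fun y hy =>
          le_trans (by exact_mod_cast hXM) (big hd (X0 := X0) (Or.inl (by omega)) y hy)
        have h5 := sq_odd_le hd h4 h4' (2 ^ a * 3 ^ m) r s hs hr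
        rw [e3] at h5
        rw [e1]
        have e2 : sq d F (2 * (2 ^ a * 3 ^ m)) r (k' + 1, o) - cc / (2 ^ (a + 1) * 3 ^ m) * G (k' + 1) o =
            (sq d F (2 * (2 ^ a * 3 ^ m)) r (k' + 1, o) - 3 / 2 * sq d F (2 ^ a * 3 ^ (m + 1)) s (k', o - 1)) +
            3 / 2 * (sq d F (2 ^ a * 3 ^ (m + 1)) s (k', o - 1) - cc / (2 ^ a * 3 ^ (m + 1)) * G k' (o - 1)) +
            (cc * (G k' (o - 1) - G (k' + 1) o)) / (2 ^ (a + 1) * 3 ^ m) := by
          have t1 : (2 : ℝ) ^ (a + 1) = 2 * 2 ^ a := by ring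
          have t2 : (3 : ℝ) ^ (m + 1) = 3 * 3 ^ m := by ring
          rw [t1, t2]
          field_simp
          ring
        rw [e2]
        refine (abs_add_le _ _).trans (add_le_add ((abs_add_le _ _).trans (add_le_add h5 ?_)) ?_)
        · rw [abs_mul, abs_of_pos (show (0 : ℝ) < 3 / 2 by norm_num)]
        · rw [abs_div, abs_mul, abs_of_nonneg hcc, abs_of_pos (show (0 : ℝ) < 2 ^ (a + 1) * 3 ^ m by positivity)]
          exact hdiv _ (by positivity)
      refine (sum_le_sum key).trans ?_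
      rw [sum_add_distrib, sum_add_distrib, ← mul_sum, ← mul_sum, ← mul_sum]
      have h5 : cc * ∑ v ∈ S, |G (v.1 - 1) (v.2 - ((1 : ℕ) : ℤ)) - G v.1 v.2| ≤ ε / 4 := by
        calc _ ≤ cc * (ε / (4 * (cc + 1))) := mul_le_mul_of_nonneg_left g2 hcc
          _ ≤ ε / 4 := by
            rw [← mul_div_assoc, div_le_div_iff₀ (by positivity) (by norm_num)]
            nlinarith
      have h6 : 3 * |(d : ℝ)| * ∑ v ∈ S, ∑ y ∈ LC d F (v.1 - 1) (v.2 - ((1 : ℕ) : ℤ)), 1 / (y : ℝ) ^ 2 ≤ ε / 4 :=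
        (mul_le_mul_of_nonneg_left g3 (by positivity)).trans hX4
      linarith

end Pool.Agent.R344.RL
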