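import Pool.Agent.R344.RL.C
import Pool.Agent.R344.LS.AD

/-!
Residues on the levels, part 4: the levels of the tree of 1.
-/

set_option autoImplicit false

namespace Pool.Agent.R344.RL

open Finset Filter Topology
open Pool.Agent.H499R2.LT
open Pool.Agent.H499R2.ND (Td Tn Dn cop_of_not_dvd)
open Pool.Agent.H319R2.Lln (mu)
open Pool.Agent.R344.LS

/-- the sum over a residue class of a cell, over the natural numbers -/
theorem sum_Q {d : ℤ} (hd : Odd d) (F : Finset ℤ) (k o : ℕ) (q r : ℤ) {U : Finset ℕ}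
    (hU : ∀ n : ℕ, n ∈ U ↔ 1 ≤ n ∧ FH d F k (n : ℤ) ∧ od d k (n : ℤ) = o ∧ q ∣ (n : ℤ) - r) :
    ∑ n ∈ U, (1 : ℝ) / (n : ℝ) = sq d F q r (k, (o : ℤ)) := by
  classical
  unfold sq
  apply sum_nbij' (fun n : ℕ => (n : ℤ)) Int.toNat
  · intro n hn
    rw [hU] at hn
    obtain ⟨h1, h2, h3, h4⟩ := hn
    rw [FH_iff] at h2
    rw [mem_filter, mem_LC hd]
    refine ⟨⟨by omega, h2.1, h2.2, ?_⟩, h4⟩
    unfold ho
    rw [h2.2]
    exact h3
  · intro x hx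
    rw [mem_filter, mem_LC hd] at hx
    obtain ⟨⟨h1, h2, h3, h4⟩, h5⟩ := hx
    have e : ((x.toNat : ℕ) : ℤ) = x := Int.toNat_of_nonneg h1.le
    rw [hU, e, FH_iff]
    refine ⟨by omega, ⟨h2, h3⟩, ?_, h5⟩
    unfold ho at h4
    rw [h3] at h4
    exact h4
  · intro n _
    simp
  · intro x hx
    rw [mem_filter, mem_LC hd] at hx
    exact Int.toNat_of_nonneg hx.1.1.le
  · intro n _
    simp

theorem mod_iff (q n r : ℕ) : ((q : ℕ) : ℤ) ∣ (n : ℤ) - (r : ℤ) ↔ n % q = r % q := by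
  rw [← Nat.modEq_iff_dvd]
  unfold Nat.ModEq
  exact eq_comm

open Classical in
theorem cell_Q (k o q r : ℕ) :
    ∑ n ∈ (Lv k).filter (fun n => odds k n = o ∧ n % q = r % q), (1 : ℝ) / (n : ℝ) =
      sq 1 {1} (q : ℤ) (r : ℤ) (k, (o : ℤ)) := by
  apply sum_Q (d := 1) odd_one
  intro n
  rw [mem_filter, mem_Lv, mod_iff]
  have h1 := FH_one k n
  have h2 := od_one k n
  rw [one_mul] at h1 h2
  rw [h1, h2]
  constructor
  · rintro ⟨⟨a, b⟩, c, e⟩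
    exact ⟨a, b, by exact_mod_cast c, e⟩
  · rintro ⟨a, b, c, e⟩
    exact ⟨⟨a, b⟩, by exact_mod_cast c, e⟩

open Classical in
/-- RESIDUES ON THE LEVELS -/
theorem res_T : ∃ δ : ℝ, 0 < δ ∧ δ ≤ 1 ∧ (δ = 1 ↔ ∀ n : ℕ, 1 ≤ n → ∃ k : ℕ, Tn^[k] n = 1) ∧
    Tendsto (fun N : ℕ => ({n : ℕ | 1 ≤ n ∧ n ≤ N ∧ ∃ k : ℕ, Tn^[k] n = 1}.ncard : ℝ) / N) atTop (𝓝 δ) ∧
    (∀ a b r : ℕ, Tendsto (fun k : ℕ => ∑ o ∈ range (k + 1),
      |∑ n ∈ (Lv k).filter (fun n => odds k n = o ∧ n % (2 ^ a * 3 ^ b) = r % (2 ^ a * 3 ^ b)), (1 : ℝ) / (n : ℝ) -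
        Real.log (4 / 3) / 2 * δ / (2 ^ a * 3 ^ b) * G k (o : ℤ)|) atTop (𝓝 0)) ∧
    (∀ a b r : ℕ, Tendsto (fun k : ℕ =>
      ∑ n ∈ (Lv k).filter (fun n => n % (2 ^ a * 3 ^ b) = r % (2 ^ a * 3 ^ b)), (1 : ℝ) / (n : ℝ)) atTop
        (𝓝 (Real.log (4 / 3) / 2 * δ / (2 ^ a * 3 ^ b)))) := by
  obtain ⟨δ, h0, _, h2, h3, _, _⟩ := limits (d := 1) odd_one (by omega) {1}
  have hc3 := cop_of_not_dvd (show ¬ (3 : ℤ) ∣ 1 by omega)
  have hD : Dn (fun n : ℕ => ∃ k : ℕ, (Td 1)^[k] (1 * (n : ℤ)) ∈ ({1} : Finset ℤ)) δ := by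
    refine Tendsto.congr (fun N => ?_) h2
    have : (fun n : ℕ => (n : ℤ) ∈ RR 1 {1}) = fun n : ℕ => ∃ k : ℕ, (Td 1)^[k] (1 * (n : ℤ)) ∈ ({1} : Finset ℤ) := by
      funext n
      unfold RR
      rw [Set.mem_ofPred_eq, one_mul]
    rw [this]
  obtain ⟨g0, g1, g2, g3⟩ := dens_Tn hD
  have e : δ * mu = Real.log (4 / 3) / 2 * δ := by
    have : mu = Real.log (4 / 3) / 2 := rfl
    rw [this]; ring
  rw [e] at h3
  have hl : 0 ≤ Real.log (4 / 3) / 2 * δ := by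
    have : 0 < Real.log (4 / 3) := Real.log_pos (by norm_num)
    positivity
  have hT : ∀ a b r : ℕ, Tendsto (fun k : ℕ => ∑ o ∈ range (k + 1),
      |∑ n ∈ (Lv k).filter (fun n => odds k n = o ∧ n % (2 ^ a * 3 ^ b) = r % (2 ^ a * 3 ^ b)), (1 : ℝ) / (n : ℝ) -
        Real.log (4 / 3) / 2 * δ / (2 ^ a * 3 ^ b) * G k (o : ℤ)|) atTop (𝓝 0) := by
    intro a b r
    rw [Metric.tendsto_atTop]
    intro ε hε
    obtain ⟨k0, hk0⟩ := law23 (d := 1) odd_one hc3 {1} hl h3 a b r 1 (ε / 2) (by positivity)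
    refine ⟨k0, fun k hk => ?_⟩
    have h1 := hk0 (lineT k) (pot_T k) (by
      intro v hv
      unfold lineT at hv
      rw [mem_image] at hv
      obtain ⟨o, _, rfl⟩ := hv
      exact hk)
    unfold lineT at h1
    rw [sum_image fun x _ y _ h => by simp only [Prod.mk.injEq, true_and] at h; exact_mod_cast h] at h1
    rw [Real.dist_eq, sub_zero, abs_of_nonneg (sum_nonneg fun _ _ => abs_nonneg _)]
    have h4 : ∀ o ∈ range (k + 1), |∑ n ∈ (Lv k).filter (fun n => odds k n = o ∧ n % (2 ^ a * 3 ^ b) = r % (2 ^ a * 3 ^ b)),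
        (1 : ℝ) / (n : ℝ) - Real.log (4 / 3) / 2 * δ / (2 ^ a * 3 ^ b) * G k (o : ℤ)| =
        |sq 1 {1} (2 ^ a * 3 ^ b) (r : ℤ) (k, (o : ℤ)) - Real.log (4 / 3) / 2 * δ / (2 ^ a * 3 ^ b) * G k (o : ℤ)| := by
      intro o _
      rw [cell_Q k o (2 ^ a * 3 ^ b) r]
      push_cast
      rfl
    rw [sum_congr rfl h4]
    linarith
  refine ⟨δ, g0, g1, g2, g3, hT, ?_⟩
  intro a b r
  rw [tendsto_iff_dist_tendsto_zero]
  refine squeeze_zero (fun k => dist_nonneg) (fun k => ?_) (hT a b r)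
  rw [Real.dist_eq]
  have h5 : ∑ n ∈ (Lv k).filter (fun n => n % (2 ^ a * 3 ^ b) = r % (2 ^ a * 3 ^ b)), (1 : ℝ) / (n : ℝ) =
      ∑ o ∈ range (k + 1), ∑ n ∈ (Lv k).filter (fun n => odds k n = o ∧ n % (2 ^ a * 3 ^ b) = r % (2 ^ a * 3 ^ b)),
        (1 : ℝ) / (n : ℝ) := by
    rw [← Finset.sum_fiberwise_of_maps_to (s := (Lv k).filter (fun n => n % (2 ^ a * 3 ^ b) = r % (2 ^ a * 3 ^ b)))
      (t := range (k + 1)) (g := fun n => odds k n)]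
    · apply sum_congr rfl
      intro o _
      rw [filter_filter]
      congr 1
      apply filter_congr
      intro n _
      exact and_comm
    · intro n _
      rw [mem_range]
      have := odds_le k n
      omega
  have h6 : Real.log (4 / 3) / 2 * δ / (2 ^ a * 3 ^ b) =
      ∑ o ∈ range (k + 1), Real.log (4 / 3) / 2 * δ / (2 ^ a * 3 ^ b) * G k (o : ℤ) := by
    rw [← mul_sum, (mom k).1, mul_one]
  rw [h5]
  conv_lhs => rw [h6]
  rw [← sum_sub_distrib]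
  exact abs_sum_le_sum_abs _ _

end Pool.Agent.R344.RL
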