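import Pool.Agent.R344.RL.D

/-!
Residues on the levels, part 5: prescribed parities.
-/

set_option autoImplicit false

namespace Pool.Agent.R344.RL

open Finset Filter Topology
open Pool.Agent.H499R2.ND (Td Tn Dn cop_of_not_dvd)
open Pool.Agent.H319R2.Lln (mu)
open Pool.Agent.R344.LS

theorem Tn_even (u : ℕ) : Tn (2 * u) = u := by
  unfold Tn
  rw [if_pos (by omega)]
  omega

theorem Tn_odd (u : ℕ) : Tn (2 * u + 1) = 3 * u + 2 := by
  unfold Tn
  rw [if_neg (by omega)]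
  omega

/-- equal residues mod `2^a` give equal parities, and conversely -/
theorem par_iff (a : ℕ) : ∀ n m : ℕ, n ≡ m [MOD 2 ^ a] ↔ ∀ i < a, Tn^[i] n % 2 = Tn^[i] m % 2 := by
  induction a with
  | zero =>
    intro n m
    simp [Nat.modEq_one]
  | succ a ih =>
    intro n m
    have hsplit : (∀ i < a + 1, Tn^[i] n % 2 = Tn^[i] m % 2) ↔
        n % 2 = m % 2 ∧ ∀ i < a, Tn^[i] (Tn n) % 2 = Tn^[i] (Tn m) % 2 := by
      constructor
      · intro h
        refine ⟨by simpa using h 0 (by omega), fun i hi => ?_⟩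
        have := h (i + 1) (by omega)
        rwa [Function.iterate_succ_apply, Function.iterate_succ_apply] at this
      · rintro ⟨h0, h1⟩ i hi
        rcases i with _ | i
        · simpa using h0
        · rw [Function.iterate_succ_apply, Function.iterate_succ_apply]
          exact h1 i (by omega)
    rw [hsplit, ← ih]
    have hpow : (2 : ℕ) ^ (a + 1) = 2 * 2 ^ a := by ring
    have hpar : n ≡ m [MOD 2 ^ (a + 1)] → n % 2 = m % 2 := by
      intro h
      have : n ≡ m [MOD 2] := h.of_dvd ⟨2 ^ a, hpow⟩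
      exact this
    have key : n % 2 = m % 2 → (n ≡ m [MOD 2 ^ (a + 1)] ↔ Tn n ≡ Tn m [MOD 2 ^ a]) := by
      intro h
      rcases Nat.mod_two_eq_zero_or_one n with h0 | h0
      · obtain ⟨u, rfl⟩ : ∃ u, n = 2 * u := ⟨n / 2, by omega⟩
        obtain ⟨v, rfl⟩ : ∃ v, m = 2 * v := ⟨m / 2, by omega⟩
        rw [Tn_even, Tn_even, hpow]
        exact ⟨fun h => Nat.ModEq.mul_left_cancel' (by omega) h, fun h => Nat.ModEq.mul_left' 2 h⟩
      · obtain ⟨u, rfl⟩ : ∃ u, n = 2 * u + 1 := ⟨n / 2, by omega⟩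
        obtain ⟨v, rfl⟩ : ∃ v, m = 2 * v + 1 := ⟨m / 2, by omega⟩
        rw [Tn_odd, Tn_odd, hpow]
        constructor
        · intro h
          have h1 : 2 * u ≡ 2 * v [MOD 2 * 2 ^ a] := Nat.ModEq.add_right_cancel' 1 h
          have h2 : u ≡ v [MOD 2 ^ a] := Nat.ModEq.mul_left_cancel' (by omega) h1
          exact (h2.mul_left 3).add_right 2
        · intro h
          have h1 : 3 * u ≡ 3 * v [MOD 2 ^ a] := Nat.ModEq.add_right_cancel' 2 h
          have h2 : u ≡ v [MOD 2 ^ a] := by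
            refine Nat.ModEq.cancel_left_of_coprime ?_ h1
            exact Nat.Coprime.pow_left a (by norm_num)
          exact (Nat.ModEq.mul_left' 2 h2).add_right 1
    constructor
    · intro h
      exact ⟨hpar h, (key (hpar h)).1 h⟩
    · rintro ⟨h0, h1⟩
      exact (key h0).2 h1

/-- every pattern of parities occurs -/
theorem pat_ex (a : ℕ) : ∀ w : ℕ → ℕ, (∀ i, w i < 2) → ∃ m : ℕ, ∀ i < a, Tn^[i] m % 2 = w i := by
  induction a with
  | zero => exact fun _ _ => ⟨0, fun i hi => by omega⟩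
  | succ a ih =>
    intro w hw
    obtain ⟨m, hm⟩ := ih (fun i => w (i + 1)) fun i => hw (i + 1)
    rcases (show w 0 = 0 ∨ w 0 = 1 by have := hw 0; omega) with h0 | h0
    · refine ⟨2 * m, fun i hi => ?_⟩
      rcases i with _ | i
      · simp [h0]
      · rw [Function.iterate_succ_apply, Tn_even]
        exact hm i (by omega)
    · obtain ⟨u, hu⟩ : ∃ u : ℕ, 3 * u + 2 ≡ m [MOD 2 ^ a] := by
        have hc : Nat.Coprime (2 ^ a) 3 := Nat.Coprime.pow_left a (by norm_num)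
        obtain ⟨x, hx1, hx2⟩ := Nat.chineseRemainder hc m 2
        refine ⟨(x + 3 * 2 ^ a) / 3, ?_⟩
        have h3 : x % 3 = 2 := hx2
        have h4 : 3 * ((x + 3 * 2 ^ a) / 3) + 2 = x + 3 * 2 ^ a := by omega
        rw [h4]
        exact (Nat.ModEq.add_right_cancel' 0 (by
          have : x + 3 * 2 ^ a ≡ x [MOD 2 ^ a] := by
            unfold Nat.ModEq
            rw [Nat.add_mul_mod_self_right]
          simpa using this)).trans hx1
      refine ⟨2 * u + 1, fun i hi => ?_⟩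
      rcases i with _ | i
      · simp only [Function.iterate_zero, id_eq, h0]
        omega
      · rw [Function.iterate_succ_apply, Tn_odd]
        have := (par_iff a (3 * u + 2) m).1 hu i (by omega)
        rw [this]
        exact hm i (by omega)

/-- a pattern of `a` parities together with a residue mod `3^b` is a residue class mod `2^a 3^b` -/
theorem pat_class (a b r : ℕ) (w : ℕ → ℕ) (hw : ∀ i, w i < 2) :
    ∃ R : ℕ, ∀ n : ℕ, ((∀ i < a, Tn^[i] n % 2 = w i) ∧ n % 3 ^ b = r % 3 ^ b) ↔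
      n % (2 ^ a * 3 ^ b) = R % (2 ^ a * 3 ^ b) := by
  obtain ⟨m, hm⟩ := pat_ex a w hw
  have hc : Nat.Coprime (2 ^ a) (3 ^ b) := Nat.Coprime.pow a b (by norm_num)
  obtain ⟨x, hx1, hx2⟩ := Nat.chineseRemainder hc m r
  refine ⟨x, fun n => ?_⟩
  have h1 : (∀ i < a, Tn^[i] n % 2 = w i) ↔ n ≡ x [MOD 2 ^ a] := by
    rw [par_iff]
    have h2 := (par_iff a x m).1 hx1
    constructor
    · intro h i hi
      rw [h i hi, h2 i hi, hm i hi]
    · intro h i hi
      rw [h i hi, h2 i hi, hm i hi]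
  have h3 : n % 3 ^ b = r % 3 ^ b ↔ n ≡ x [MOD 3 ^ b] :=
    ⟨fun h => Nat.ModEq.trans h hx2.symm, fun h => Nat.ModEq.trans h hx2⟩
  rw [h1, h3]
  exact Nat.modEq_and_modEq_iff_modEq_mul hc

open Classical in
/-- PARITIES AND RESIDUES ON THE LEVELS -/
theorem pat_T : ∃ δ : ℝ, 0 < δ ∧ δ ≤ 1 ∧ (δ = 1 ↔ ∀ n : ℕ, 1 ≤ n → ∃ k : ℕ, Tn^[k] n = 1) ∧
    Tendsto (fun N : ℕ => ({n : ℕ | 1 ≤ n ∧ n ≤ N ∧ ∃ k : ℕ, Tn^[k] n = 1}.ncard : ℝ) / N) atTop (𝓝 δ) ∧
    (∀ (a b r : ℕ) (w : ℕ → ℕ), (∀ i, w i < 2) →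
      Tendsto (fun k : ℕ => ∑' n : {n : ℕ | 1 ≤ n ∧ Stops k n ∧
        ((∀ i < a, Tn^[i] n % 2 = w i) ∧ n % 3 ^ b = r % 3 ^ b)}, (1 : ℝ) / ((n : ℕ) : ℝ)) atTop
        (𝓝 (Real.log (4 / 3) / 2 * δ / (2 ^ a * 3 ^ b))) ∧
      Tendsto (fun k : ℕ => ∑ o ∈ range (k + 1), |∑' n : {n : ℕ | 1 ≤ n ∧ Stops k n ∧
        (odds k n = o ∧ ((∀ i < a, Tn^[i] n % 2 = w i) ∧ n % 3 ^ b = r % 3 ^ b))}, (1 : ℝ) / ((n : ℕ) : ℝ) -
        Real.log (4 / 3) / 2 * δ / (2 ^ a * 3 ^ b) * ((k.choose o : ℝ) / 2 ^ k)|) atTop (𝓝 0)) := by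
  obtain ⟨δ, h0, h1, h2, h3, h4, h5⟩ := res_T
  refine ⟨δ, h0, h1, h2, h3, ?_⟩
  intro a b r w hw
  obtain ⟨R, hR⟩ := pat_class a b r w hw
  constructor
  · refine (h5 a b R).congr fun k => ?_
    rw [tsum_Lv k]
    refine sum_congr ?_ fun _ _ => rfl
    ext n
    simp only [mem_filter, hR n]
  · refine (h4 a b R).congr fun k => ?_
    apply sum_congr rfl
    intro o _
    rw [tsum_Lv k, G_nat]
    have e : ∑ n ∈ (Lv k).filter (fun n => odds k n = o ∧ n % (2 ^ a * 3 ^ b) = R % (2 ^ a * 3 ^ b)), (1 : ℝ) / (n : ℝ) =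
        ∑ n ∈ (Lv k).filter (fun n => odds k n = o ∧ ((∀ i < a, Tn^[i] n % 2 = w i) ∧ n % 3 ^ b = r % 3 ^ b)),
          (1 : ℝ) / (n : ℝ) := by
      refine sum_congr ?_ fun _ _ => rfl
      ext n
      simp only [mem_filter, hR n]
    rw [e]
    congr 3
    ext n
    simp only [mem_filter]

end Pool.Agent.R344.RL
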