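import Pool.Agent.R344.RL.D
import Pool.Agent.R344.LS.Z

/-!
Residues on the levels, both signs, any odd `d` prime to three.
-/

set_option autoImplicit false

namespace Pool.Agent.R344.RL

open Finset Filter Topology
open Pool.Agent.H499R2.LT
open Pool.Agent.H499R2.ND (Td Tn Dn cop_of_not_dvd side_odd)
open Pool.Agent.H319R2.Lln (mu)
open Pool.Agent.R344.LS

open Classical in
/-- the members of the cell `(k, o)` in the class of `r` mod `q` -/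
noncomputable def fR (d s : ℤ) (F : Finset ℤ) (k o : ℕ) (q r : ℤ) (n : ℕ) : ℝ :=
  if 1 ≤ n ∧ (FH d F k (s * n) ∧ od d k (s * n) = o ∧ q ∣ s * n - r) then (1 : ℝ) / n else 0

theorem fR_side {d : ℤ} (hd : Odd d) {s : ℤ} (hs : s = 1 ∨ s = -1) (F : Finset ℤ) (k o : ℕ) (q r : ℤ) :
    fR d s F k o q r = fR (s * d) 1 (F.image (fun a => s * a)) k o q (s * r) := by
  classical
  funext n
  unfold fR
  have e : (q ∣ (n : ℤ) - s * r) ↔ q ∣ s * (n : ℤ) - r := by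
    rcases hs with rfl | rfl
    · rw [one_mul, one_mul]
    · rw [show (n : ℤ) - -1 * r = -(-1 * (n : ℤ) - r) by ring, dvd_neg]
  simp only [one_mul, FH_side hd hs, od_side hd hs, e]

theorem hasSum_R {d : ℤ} (hd : Odd d) (F : Finset ℤ) (k o : ℕ) (q r : ℤ) :
    HasSum (fR d 1 F k o q r) (sq d F q r (k, (o : ℤ))) := by
  classical
  set U : Finset ℕ := ((LC d F k (o : ℤ)).filter (fun x => q ∣ x - r)).image Int.toNat with hU
  have hmem : ∀ n : ℕ, n ∈ U ↔ 1 ≤ n ∧ FH d F k (n : ℤ) ∧ od d k (n : ℤ) = o ∧ q ∣ (n : ℤ) - r := by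
    intro n
    rw [hU, mem_image]
    constructor
    · rintro ⟨x, hx, rfl⟩
      rw [mem_filter, mem_LC hd] at hx
      obtain ⟨⟨h1, h2, h3, h4⟩, h5⟩ := hx
      have e : ((x.toNat : ℕ) : ℤ) = x := Int.toNat_of_nonneg h1.le
      rw [e, FH_iff]
      refine ⟨by omega, ⟨h2, h3⟩, ?_, h5⟩
      unfold ho at h4
      rw [h3] at h4
      exact h4
    · rintro ⟨h1, h2, h3, h4⟩
      rw [FH_iff] at h2
      refine ⟨(n : ℤ), ?_, by simp⟩
      rw [mem_filter, mem_LC hd]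
      refine ⟨⟨by omega, h2.1, h2.2, ?_⟩, h4⟩
      unfold ho
      rw [h2.2]
      exact h3
  rw [← sum_Q hd F k o q r hmem]
  have h1 : ∑ n ∈ U, (1 : ℝ) / (n : ℝ) = ∑ n ∈ U, fR d 1 F k o q r n := by
    apply sum_congr rfl
    intro n hn
    rw [hmem] at hn
    unfold fR
    rw [one_mul, if_pos hn]
  rw [h1]
  apply hasSum_sum_of_ne_finset_zero
  intro n hn
  rw [hmem] at hn
  unfold fR
  rw [one_mul, if_neg hn]

/-- one sign -/
theorem side_res {d : ℤ} (hd : Odd d) (hd3 : ¬ (3 : ℤ) ∣ d) {s : ℤ} (hs : s = 1 ∨ s = -1) (F : Finset ℤ) :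
    ∃ δ : ℝ, 0 ≤ δ ∧ Dn (fun n : ℕ => ∃ k : ℕ, (Td d)^[k] (s * n) ∈ F) δ ∧
    (∀ (k o : ℕ) (q r : ℤ), Summable (fR d s F k o q r)) ∧
    (∀ (a b : ℕ) (r : ℤ), Tendsto (fun k : ℕ => ∑ o ∈ range (k + 1),
      |∑' n, fR d s F k o (2 ^ a * 3 ^ b) r n -
        Real.log (4 / 3) / 2 * δ / (2 ^ a * 3 ^ b) * ((k.choose o : ℝ) / 2 ^ k)|) atTop (𝓝 0)) := by
  classical
  have hd' : Odd (s * d) := side_odd hd hs
  have hd3' : ¬ (3 : ℤ) ∣ s * d := by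
    rcases hs with rfl | rfl
    · simpa using hd3
    · rw [neg_one_mul, dvd_neg]; exact hd3
  set F' : Finset ℤ := F.image (fun a => s * a) with hF'
  obtain ⟨δ, h0, h1, h2, h3, h4, h5⟩ := limits hd' hd3' F'
  have hc3' := cop_of_not_dvd hd3'
  have hmu : mu = Real.log (4 / 3) / 2 := rfl
  have hX : ∀ (k o : ℕ) (q r : ℤ), ∑' n, fR d s F k o q r n = sq (s * d) F' q (s * r) (k, (o : ℤ)) := fun k o q r => by
    rw [fR_side hd hs]; exact (hasSum_R hd' F' k o q (s * r)).tsum_eq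
  have hcc : δ * mu = Real.log (4 / 3) / 2 * δ := by rw [hmu]; ring
  rw [hcc] at h3
  have hl : 0 ≤ Real.log (4 / 3) / 2 * δ := by
    have : 0 < Real.log (4 / 3) := Real.log_pos (by norm_num)
    positivity
  refine ⟨δ, h0, ?_, ?_, ?_⟩
  · refine Tendsto.congr (fun N => ?_) h2
    have : (fun n : ℕ => (n : ℤ) ∈ RR (s * d) F') = fun n : ℕ => ∃ k : ℕ, (Td d)^[k] (s * n) ∈ F := by
      funext n
      unfold RR
      rw [Set.mem_ofPred_eq]
      exact propext (exists_congr fun k => hit_side hd hs F k n)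
    rw [this]
  · intro k o q r
    rw [fR_side hd hs]
    exact (hasSum_R hd' F' k o q (s * r)).summable
  · intro a b r
    rw [Metric.tendsto_atTop]
    intro ε hε
    obtain ⟨k0, hk0⟩ := law23 hd' hc3' F' hl h3 a b (s * r) 1 (ε / 2) (by positivity)
    refine ⟨k0, fun k hk => ?_⟩
    have h1 := hk0 (lineT k) (pot_T k) (by
      intro v hv
      unfold lineT at hv
      rw [mem_image] at hv
      obtain ⟨o, _, rfl⟩ := hv
      exact hk)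
    unfold lineT at h1
    rw [sum_image fun x _ y _ h => by simp only [Prod.mk.injEq, true_and] at h; exact_mod_cast h] at h1
    rw [Real.dist_eq, sub_zero, abs_of_nonneg (sum_nonneg fun _ _ => abs_nonneg _)]
    have h4 : ∀ o ∈ range (k + 1), |∑' n, fR d s F k o (2 ^ a * 3 ^ b) r n -
        Real.log (4 / 3) / 2 * δ / (2 ^ a * 3 ^ b) * ((k.choose o : ℝ) / 2 ^ k)| =
        |sq (s * d) F' (2 ^ a * 3 ^ b) (s * r) (k, (o : ℤ)) - Real.log (4 / 3) / 2 * δ / (2 ^ a * 3 ^ b) * G k (o : ℤ)| := by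
      intro o _
      rw [hX, G_nat]
    rw [sum_congr rfl h4]
    linarith

theorem od_le (d : ℤ) (k : ℕ) (x : ℤ) : ∃ o : ℕ, o ≤ k ∧ od d k x = o := by
  rw [od_card]
  refine ⟨_, ?_, rfl⟩
  refine (card_filter_le _ _).trans ?_
  rw [card_range]

/-- BOTH SIGNS: residues on the levels -/
theorem both_res {d : ℤ} (hd : Odd d) (hd3 : ¬ (3 : ℤ) ∣ d) (F : Finset ℤ) : ∃ δ₁ δ₂ : ℝ,
    0 ≤ δ₁ ∧ δ₁ ≤ 1 ∧ 0 ≤ δ₂ ∧ δ₂ ≤ 1 ∧
    Dn (fun n : ℕ => ∃ k : ℕ, (Td d)^[k] (1 * n) ∈ F) δ₁ ∧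
    Dn (fun n : ℕ => ∃ k : ℕ, (Td d)^[k] (-1 * n) ∈ F) δ₂ ∧
    ∀ (a b : ℕ) (r : ℤ),
      (∀ k : ℕ, Summable (fun x : {x : ℤ | x ≠ 0 ∧ (FH d F k x ∧ (2 ^ a * 3 ^ b : ℤ) ∣ x - r)} => (1 : ℝ) / |((x : ℤ) : ℝ)|)) ∧
      Tendsto (fun k : ℕ => ∑' x : {x : ℤ | x ≠ 0 ∧ (FH d F k x ∧ (2 ^ a * 3 ^ b : ℤ) ∣ x - r)}, (1 : ℝ) / |((x : ℤ) : ℝ)|) atTop
        (𝓝 (Real.log (4 / 3) / 2 * (δ₁ + δ₂) / (2 ^ a * 3 ^ b))) ∧
      Tendsto (fun k : ℕ => ∑ o ∈ range (k + 1),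
        |∑' x : {x : ℤ | x ≠ 0 ∧ (FH d F k x ∧ od d k x = o ∧ (2 ^ a * 3 ^ b : ℤ) ∣ x - r)}, (1 : ℝ) / |((x : ℤ) : ℝ)| -
          Real.log (4 / 3) / 2 * (δ₁ + δ₂) / (2 ^ a * 3 ^ b) * ((k.choose o : ℝ) / 2 ^ k)|) atTop (𝓝 0) := by
  classical
  obtain ⟨δ₁, a0, c1, s1, u1⟩ := side_res hd hd3 (s := 1) (Or.inl rfl) F
  obtain ⟨δ₂, b0, c2, s2, u2⟩ := side_res hd hd3 (s := -1) (Or.inr rfl) F
  refine ⟨δ₁, δ₂, a0, Dn_le_one c1, b0, Dn_le_one c2, c1, c2, ?_⟩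
  intro a b r
  set q : ℤ := 2 ^ a * 3 ^ b with hq
  have key : ∀ k o : ℕ, HasSum (fun x : {x : ℤ | x ≠ 0 ∧ (FH d F k x ∧ od d k x = o ∧ q ∣ x - r)} => (1 : ℝ) / |((x : ℤ) : ℝ)|)
      (∑' n, fR d 1 F k o q r n + ∑' n, fR d (-1) F k o q r n) := by
    intro k o
    apply hasSum_P (P := fun x => FH d F k x ∧ od d k x = o ∧ q ∣ x - r) _ _ _ _ (s1 k o q r).hasSum (s2 k o q r).hasSum
    · intro n hn hP
      unfold fR
      rw [one_mul, if_pos ⟨hn, hP⟩]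
    · intro n hn
      unfold fR
      rw [one_mul, if_neg hn]
    · intro n hn hP
      unfold fR
      rw [neg_one_mul, if_pos ⟨hn, hP⟩]
    · intro n hn
      unfold fR
      rw [neg_one_mul, if_neg hn]
  have sumR : ∀ (s : ℤ) (k n : ℕ), ∑ o ∈ range (k + 1), fR d s F k o q r n =
      if 1 ≤ n ∧ (FH d F k (s * n) ∧ q ∣ s * n - r) then (1 : ℝ) / n else 0 := by
    intro s k n
    obtain ⟨o', ho', he⟩ := od_le d k (s * n)
    rw [sum_eq_single o']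
    · unfold fR
      rw [he]
      by_cases h : 1 ≤ n ∧ (FH d F k (s * n) ∧ q ∣ s * n - r)
      · rw [if_pos h, if_pos ⟨h.1, h.2.1, rfl, h.2.2⟩]
      · rw [if_neg h, if_neg (fun h' => h ⟨h'.1, h'.2.1, h'.2.2.2⟩)]
    · intro o _ hne
      unfold fR
      rw [if_neg]
      rintro ⟨_, _, h, _⟩
      rw [he] at h
      exact hne (by exact_mod_cast h.symm)
    · intro h
      exact absurd (mem_range.2 (by omega)) h
  have key2 : ∀ k : ℕ, HasSum (fun x : {x : ℤ | x ≠ 0 ∧ (FH d F k x ∧ q ∣ x - r)} => (1 : ℝ) / |((x : ℤ) : ℝ)|)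
      (∑ o ∈ range (k + 1), ∑' n, fR d 1 F k o q r n + ∑ o ∈ range (k + 1), ∑' n, fR d (-1) F k o q r n) := by
    intro k
    have g1 := hasSum_sum (s := range (k + 1)) fun o _ => (s1 k o q r).hasSum
    have g2 := hasSum_sum (s := range (k + 1)) fun o _ => (s2 k o q r).hasSum
    apply hasSum_P (P := fun x => FH d F k x ∧ q ∣ x - r) _ _ _ _ g1 g2
    · intro n hn hP
      rw [sumR, one_mul, if_pos ⟨hn, hP⟩]
    · intro n hn
      rw [sumR, one_mul, if_neg hn]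
    · intro n hn hP
      rw [sumR, neg_one_mul, if_pos ⟨hn, hP⟩]
    · intro n hn
      rw [sumR, neg_one_mul, if_neg hn]
  have hT : Tendsto (fun k : ℕ => ∑ o ∈ range (k + 1),
        |∑' x : {x : ℤ | x ≠ 0 ∧ (FH d F k x ∧ od d k x = o ∧ q ∣ x - r)}, (1 : ℝ) / |((x : ℤ) : ℝ)| -
          Real.log (4 / 3) / 2 * (δ₁ + δ₂) / (2 ^ a * 3 ^ b) * ((k.choose o : ℝ) / 2 ^ k)|) atTop (𝓝 0) := by
    have h3 := (u1 a b r).add (u2 a b r)
    rw [add_zero] at h3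
    refine squeeze_zero (fun k => sum_nonneg fun _ _ => abs_nonneg _) (fun k => ?_) h3
    rw [← sum_add_distrib]
    apply sum_le_sum
    intro o _
    rw [(key k o).tsum_eq]
    refine le_trans (le_of_eq ?_) (abs_add_le _ _)
    congr 1
    ring
  refine ⟨fun k => (key2 k).summable, ?_, hT⟩
  rw [tendsto_iff_dist_tendsto_zero]
  refine squeeze_zero (fun k => dist_nonneg) (fun k => ?_) hT
  rw [Real.dist_eq, (key2 k).tsum_eq]
  have h6 : ∑ o ∈ range (k + 1), ((k.choose o : ℝ) / 2 ^ k) = 1 := by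
    rw [← (mom k).1]
    exact sum_congr rfl fun o _ => (G_nat k o).symm
  have h7 : ∑ o ∈ range (k + 1), ∑' n, fR d 1 F k o q r n + ∑ o ∈ range (k + 1), ∑' n, fR d (-1) F k o q r n -
      Real.log (4 / 3) / 2 * (δ₁ + δ₂) / (2 ^ a * 3 ^ b) =
      ∑ o ∈ range (k + 1), (∑' n, fR d 1 F k o q r n + ∑' n, fR d (-1) F k o q r n -
        Real.log (4 / 3) / 2 * (δ₁ + δ₂) / (2 ^ a * 3 ^ b) * ((k.choose o : ℝ) / 2 ^ k)) := by
    rw [sum_sub_distrib, ← mul_sum, h6, mul_one, sum_add_distrib]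
  rw [h7]
  refine le_trans (abs_sum_le_sum_abs _ _) ?_
  apply sum_le_sum
  intro o _
  rw [(key k o).tsum_eq]

end Pool.Agent.R344.RL
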