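import Pool.Agent.R344.RL.F

/-!
Finiteness of the number of cycles of the `3x+d` map and the masses of the levels.
-/

set_option autoImplicit false

namespace Pool.Agent.R344.RL

open Finset Filter Topology
open Pool.Agent.H499R2.LT
open Pool.Agent.R344.LS (log43_pos both_line both LZ FH)
open Pool.Agent.H499R2.ND (Td Dn cop_of_not_dvd side_odd cnt cnt_eq cnt_mono tail_le dens_side Inv HD class_pos
  exists_prime3' inv_iter one_eq_zero)

variable {d : ℤ}

theorem Dn_add_disj {P Q R : ℕ → Prop} {a b c : ℝ} (hP : Dn P a) (hQ : Dn Q b) (hR : Dn R c)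
    (hd : ∀ n, P n → ¬ Q n) (hu : ∀ n, R n ↔ (P n ∨ Q n)) : a + b = c := by
  classical
  have h1 := hP.add hQ
  refine tendsto_nhds_unique h1 (hR.congr fun N => ?_)
  rw [cnt_eq, cnt_eq, cnt_eq, ← add_div, ← Nat.cast_add]
  congr 2
  rw [← card_union_of_disjoint, ← filter_or]
  · congr 1
    ext n
    simp only [mem_filter, hu]
  · rw [disjoint_filter]
    intro n _ h2 h3
    exact hd n h2 h3

theorem Re_inv (hd : Odd d) (hd3 : ¬ (3 : ℤ) ∣ d) (y : ℕ) : Inv d (Re d y) := by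
  intro x
  constructor
  · rintro ⟨k, hk⟩
    refine ⟨k, ?_⟩
    rw [← Function.iterate_succ_apply, Function.iterate_succ_apply']
    exact Zy_step hd hd3 hk
  · rintro ⟨k, hk⟩
    exact ⟨k + 1, by rw [Function.iterate_succ_apply]; exact hk⟩

theorem Zy_iter (hd : Odd d) (hd3 : ¬ (3 : ℤ) ∣ d) {y : ℕ} {x : ℤ} (h : x ∈ Zy d y) (k : ℕ) :
    (Td d)^[k] x ∈ Zy d y := by
  induction k with
  | zero => exact h
  | succ k ih => rw [Function.iterate_succ_apply']; exact Zy_step hd hd3 ih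

theorem per_iter {x : ℤ} {j : ℕ} (h : (Td d)^[j] x = x) (m : ℕ) : (Td d)^[m * j] x = x := by
  induction m with
  | zero => rw [zero_mul]; rfl
  | succ m ih => rw [show (m + 1) * j = m * j + j by ring, Function.iterate_add_apply, h, ih]

/-- a periodic point which reaches `Zy` lies in `Zy` -/
theorem per_back (hd : Odd d) (hd3 : ¬ (3 : ℤ) ∣ d) {y : ℕ} {x : ℤ} (hx : Per d x) (h : x ∈ Re d y) :
    x ∈ Zy d y := by
  obtain ⟨j, hj, hx⟩ := hx
  obtain ⟨k, hk⟩ := h
  have h1 := Zy_iter hd hd3 hk (k * j - k)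
  rw [← Function.iterate_add_apply] at h1
  have h2 : k ≤ k * j := Nat.le_mul_of_pos_right k (by omega)
  rw [show k * j - k + k = k * j by omega, per_iter hx] at h1
  exact h1

/-- THE CYCLES AND THE MASSES -/
theorem fin_main (hd : Odd d) (hd3 : ¬ (3 : ℤ) ∣ d) : ∃ (e : ℝ) (L : ℕ → ℝ), Monotone L ∧
      (∀ y : ℕ, (∀ k : ℕ, Summable (fun x : LZ d (Zy_fin (d := d) y).toFinset k => (1 : ℝ) / |((x : ℤ) : ℝ)|)) ∧
        Tendsto (fun k : ℕ => ∑' x : LZ d (Zy_fin (d := d) y).toFinset k, (1 : ℝ) / |((x : ℤ) : ℝ)|) atTop (𝓝 (L y))) ∧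
      (∀ B : ℕ, ∃ K : ℝ, 0 < K ∧ ∀ y : ℕ, 2 ≤ y → 0 ≤ e - L y ∧ e - L y ≤ K / Real.log y ^ B) ∧
      (∀ y y' : ℕ, y ≤ y' → (L y = L y' ↔ Zy d y = Zy d y')) := by
  obtain ⟨e₁, a0, a1, r₁, a3, a4, a5⟩ := one_side hd hd3 (s := 1) (Or.inl rfl)
  obtain ⟨e₂, b0, b1, r₂, b3, b4, b5⟩ := one_side hd hd3 (s := -1) (Or.inr rfl)
  have hl := log43_pos
  have hc3 := cop_of_not_dvd hd3
  set L : ℕ → ℝ := fun y => Real.log (4 / 3) / 2 * ((1 - e₁ - r₁ y) + (1 - e₂ - r₂ y)) with hL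
  refine ⟨Real.log (4 / 3) * (1 - (e₁ + e₂) / 2), L, ?_, ?_, ?_, ?_⟩
  · intro y y' hy
    have h1 := Pool.Agent.R344.LS.Dn_mono (fun n h => by
      obtain ⟨k, hk⟩ := h
      exact ⟨k, Zy_mono hy hk⟩) (a5 y) (a5 y')
    have h2 := Pool.Agent.R344.LS.Dn_mono (fun n h => by
      obtain ⟨k, hk⟩ := h
      exact ⟨k, Zy_mono hy hk⟩) (b5 y) (b5 y')
    rw [hL]
    show Real.log (4 / 3) / 2 * _ ≤ Real.log (4 / 3) / 2 * _
    apply mul_le_mul_of_nonneg_left _ (by positivity)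
    linarith
  · intro y
    obtain ⟨δ₁, δ₂, _, _, _, _, c1, c2, c3, c4⟩ := both hd hd3 (Zy_fin (d := d) y).toFinset
    have e1 : δ₁ = 1 - e₁ - r₁ y := by
      refine tendsto_nhds_unique c1 ?_
      have := a5 y
      have e : (fun n : ℕ => (1 : ℤ) * (n : ℤ) ∈ Re d y) = fun n : ℕ => ∃ k : ℕ, (Td d)^[k] (1 * (n : ℤ)) ∈ (Zy_fin (d := d) y).toFinset := by
        funext n
        simp only [Re, Set.mem_ofPred_eq, Set.Finite.mem_toFinset]
      rwa [e] at this
    have e2 : δ₂ = 1 - e₂ - r₂ y := by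
      refine tendsto_nhds_unique c2 ?_
      have := b5 y
      have e : (fun n : ℕ => (-1 : ℤ) * (n : ℤ) ∈ Re d y) = fun n : ℕ => ∃ k : ℕ, (Td d)^[k] (-1 * (n : ℤ)) ∈ (Zy_fin (d := d) y).toFinset := by
        funext n
        simp only [Re, Set.mem_ofPred_eq, Set.Finite.mem_toFinset]
      rwa [e] at this
    subst e1
    subst e2
    exact ⟨c3, c4⟩
  · intro B
    obtain ⟨K₁, hK₁, g1⟩ := a4 B
    obtain ⟨K₂, hK₂, g2⟩ := b4 B
    refine ⟨Real.log (4 / 3) / 2 * (K₁ + K₂), by positivity, fun y hy => ?_⟩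
    have e : Real.log (4 / 3) * (1 - (e₁ + e₂) / 2) - L y = Real.log (4 / 3) / 2 * (r₁ y + r₂ y) := by
      rw [hL]; ring
    rw [e]
    have h1 := g1 y hy
    have h2 := g2 y hy
    have h3 := a3 y
    have h4 := b3 y
    refine ⟨by positivity, ?_⟩
    rw [mul_div_assoc, add_div]
    apply mul_le_mul_of_nonneg_left _ (by positivity)
    exact add_le_add h1 h2
  · intro y y' hy
    constructor
    · intro h
      by_contra hne
      obtain ⟨x, hx', hx⟩ : ∃ x, x ∈ Zy d y' ∧ x ∉ Zy d y := by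
        by_contra hcon
        push Not at hcon
        exact hne (Set.Subset.antisymm (Zy_mono hy) hcon)
      have hxR : x ∉ Re d y := fun h => hx (per_back hd hd3 hx'.2.1 h)
      set S : Set ℤ := Re d y' ∩ (Re d y)ᶜ with hS
      have hSinv : Inv d S := by
        intro z
        rw [hS, Set.mem_inter_iff, Set.mem_inter_iff, ← Re_inv hd hd3 y' z, ← (Re_inv hd hd3 y).compl z]
      have hxS : x ∈ S := ⟨⟨0, hx'⟩, hxR⟩
      obtain ⟨l1, p1, _, q1⟩ := dens_side hd hc3 (s := 1) (Or.inl rfl) hSinv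
      obtain ⟨l2, p2, _, q2⟩ := dens_side hd hc3 (s := -1) (Or.inr rfl) hSinv
      have k1 : (1 - e₁ - r₁ y) + l1 = 1 - e₁ - r₁ y' := by
        refine Dn_add_disj (a5 y) (dn_side q1) (a5 y') (fun n h1 h2 => h2.2 h1) fun n => ?_
        rw [hS]
        constructor
        · intro h
          by_cases h' : (1 : ℤ) * (n : ℤ) ∈ Re d y
          · exact Or.inl h'
          · exact Or.inr ⟨h, h'⟩
        · rintro (⟨k, hk⟩ | h)
          · exact ⟨k, Zy_mono hy hk⟩
          · exact h.1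
      have k2 : (1 - e₂ - r₂ y) + l2 = 1 - e₂ - r₂ y' := by
        refine Dn_add_disj (b5 y) (dn_side q2) (b5 y') (fun n h1 h2 => h2.2 h1) fun n => ?_
        rw [hS]
        constructor
        · intro h
          by_cases h' : (-1 : ℤ) * (n : ℤ) ∈ Re d y
          · exact Or.inl h'
          · exact Or.inr ⟨h, h'⟩
        · rintro (⟨k, hk⟩ | h)
          · exact ⟨k, Zy_mono hy hk⟩
          · exact h.1
      have hsum : l1 + l2 = 0 := by
        have h' : Real.log (4 / 3) / 2 * ((1 - e₁ - r₁ y) + (1 - e₂ - r₂ y)) =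
            Real.log (4 / 3) / 2 * ((1 - e₁ - r₁ y') + (1 - e₂ - r₂ y')) := h
        have h'' := mul_left_cancel₀ (by positivity : Real.log (4 / 3) / 2 ≠ 0) h'
        linarith
      obtain ⟨k, hk⟩ := exists_prime3' hd hd3 _ x hx'.1 le_rfl
      have hm : (Td d)^[k] x ∈ S := (inv_iter hSinv k x).1 hxS
      have h0 := Td_iter_ne hd hd3 hx'.1 k
      rcases lt_or_gt_of_ne h0 with h1 | h1
      · have := class_pos hd hd3 (s := -1) (Or.inr rfl) hSinv hm (by omega) hk q2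
        linarith
      · have := class_pos hd hd3 (s := 1) (Or.inl rfl) hSinv hm (by omega) hk q1
        linarith
    · intro h
      have e : Re d y = Re d y' := by
        unfold Re
        rw [h]
      have g1 : 1 - e₁ - r₁ y = 1 - e₁ - r₁ y' := by
        refine tendsto_nhds_unique (a5 y) ?_
        rw [e]
        exact a5 y'
      have g2 : 1 - e₂ - r₂ y = 1 - e₂ - r₂ y' := by
        refine tendsto_nhds_unique (b5 y) ?_
        rw [e]
        exact b5 y'
      rw [hL]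
      show Real.log (4 / 3) / 2 * _ = Real.log (4 / 3) / 2 * _
      rw [g1, g2]

/-- only finitely many cycles iff the sets `Zy` stabilise -/
theorem fin_iff : {x : ℤ | Per d x}.Finite ↔ ∃ y : ℕ, ∀ y' : ℕ, y ≤ y' → Zy d y = Zy d y' := by
  constructor
  · intro h
    obtain ⟨M, hM⟩ : ∃ M : ℕ, ∀ x : ℤ, Per d x → |x| ≤ M := by
      have h2 : (Int.natAbs '' {x : ℤ | Per d x}).Finite := h.image _
      obtain ⟨M, hM⟩ := h2.bddAbove
      refine ⟨M, fun x hx => ?_⟩
      have := hM ⟨x, hx, rfl⟩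
      rw [Int.abs_eq_natAbs]
      exact_mod_cast this
    refine ⟨M, fun y' hy => Set.Subset.antisymm (Zy_mono hy) ?_⟩
    rintro x ⟨h0, h1, _⟩
    exact ⟨h0, h1, x, hM x h1, 0, rfl⟩
  · rintro ⟨y, hy⟩
    apply ((Zy_fin (d := d) y).insert 0).subset
    intro x hx
    by_cases h0 : x = 0
    · exact Or.inl h0
    · right
      have h1 : x ∈ Zy d (max y x.natAbs) := by
        refine ⟨h0, hx, x, ?_, 0, rfl⟩
        rw [Int.abs_eq_natAbs]
        exact_mod_cast le_max_right _ _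
      rwa [← hy _ (le_max_left _ _)] at h1

end Pool.Agent.R344.RL
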